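import Mathlib

/-!
The weighted Wiener algebra on the two-dimensional torus (complex coefficients), after the pattern of
`Pool.Agent.N229.SC.Alg`.
-/

open Set Filter Topology

namespace Run7.h99.WB

/-- The space `ℓ¹(ι)` with complex coefficients. -/
noncomputable abbrev L1 (ι : Type) := lp (fun _ : ι => ℂ) 1

/-- The unit vector with index `i`. -/
noncomputable def ue {ι : Type} [DecidableEq ι] (i : ι) : L1 ι := lp.single 1 i (1 : ℂ)

section lift

variable {ι κ Y : Type} [NormedAddCommGroup Y] [NormedSpace ℂ Y] [CompleteSpace Y]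

theorem L1.hasSum_norm (a : L1 ι) : HasSum (fun i => ‖a i‖) ‖a‖ := by
  have h := lp.hasSum_norm (p := 1) (by norm_num) a
  simpa using h

theorem L1.summable (a : L1 ι) : Summable (fun i => ‖a i‖) := (L1.hasSum_norm a).summable

theorem L1.lift_summable (φ : ι → Y) (C : ℝ) (h : ∀ i, ‖φ i‖ ≤ C) (a : L1 ι) :
    Summable (fun i => a i • φ i) := by
  refine Summable.of_norm_bounded (g := fun i => ‖a i‖ * C) ((L1.summable a).mul_right C) fun i => ?_
  rw [norm_smul]
  exact mul_le_mul_of_nonneg_left (h i) (norm_nonneg _)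

/-- The continuous linear map `a ↦ ∑ i, a i • φ i` given by a bounded family `φ`. -/
noncomputable def lift (φ : ι → Y) (C : ℝ) (h : ∀ i, ‖φ i‖ ≤ C) : L1 ι →L[ℂ] Y :=
  LinearMap.mkContinuous
    { toFun := fun a => ∑' i, a i • φ i
      map_add' := fun a b => by
        simp only [lp.coeFn_add, Pi.add_apply, add_smul]
        exact (L1.lift_summable φ C h a).tsum_add (L1.lift_summable φ C h b)
      map_smul' := fun c a => by
        simp only [lp.coeFn_smul, Pi.smul_apply, smul_eq_mul, RingHom.id_apply, mul_smul]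
        exact (L1.lift_summable φ C h a).tsum_const_smul c } C fun a => by
      have h1 : HasSum (fun i => ‖a i‖ * C) (‖a‖ * C) := (L1.hasSum_norm a).mul_right C
      have h2 := tsum_of_norm_bounded h1 (f := fun i => a i • φ i) fun i => by
        rw [norm_smul]
        exact mul_le_mul_of_nonneg_left (h i) (norm_nonneg _)
      calc ‖∑' i, a i • φ i‖ ≤ ‖a‖ * C := h2
        _ = C * ‖a‖ := mul_comm _ _

theorem lift_apply (φ : ι → Y) (C : ℝ) (h : ∀ i, ‖φ i‖ ≤ C) (a : L1 ι) :
    lift φ C h a = ∑' i, a i • φ i := rfl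

theorem lift_hasSum (φ : ι → Y) (C : ℝ) (h : ∀ i, ‖φ i‖ ≤ C) (a : L1 ι) :
    HasSum (fun i => a i • φ i) (lift φ C h a) := (L1.lift_summable φ C h a).hasSum

theorem norm_lift_le (φ : ι → Y) (C : ℝ) (hC : 0 ≤ C) (h : ∀ i, ‖φ i‖ ≤ C) :
    ‖lift φ C h‖ ≤ C := LinearMap.mkContinuous_norm_le _ hC _

theorem lift_ue [DecidableEq ι] (φ : ι → Y) (C : ℝ) (h : ∀ i, ‖φ i‖ ≤ C) (i : ι) :
    lift φ C h (ue i) = φ i := by
  rw [lift_apply, tsum_eq_single i]
  · simp [ue]
  · intro j hj
    have : (ue i : L1 ι) j = 0 := by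
      unfold ue
      exact lp.single_apply_ne 1 i 1 hj
    rw [this, zero_smul]

theorem norm_ue [DecidableEq ι] (i : ι) : ‖(ue i : L1 ι)‖ = 1 := by
  unfold ue
  rw [lp.norm_single (by norm_num)]
  simp

/-- The bilinear version of `lift`. -/
noncomputable def lift₂ (φ : ι → κ → Y) (C : ℝ) (hC : 0 ≤ C) (h : ∀ i j, ‖φ i j‖ ≤ C) :
    L1 ι →L[ℂ] L1 κ →L[ℂ] Y :=
  lift (fun i => lift (φ i) C (h i)) C fun i => norm_lift_le (φ i) C hC (h i)

theorem lift₂_ue [DecidableEq ι] [DecidableEq κ] (φ : ι → κ → Y) (C : ℝ) (hC : 0 ≤ C)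
    (h : ∀ i j, ‖φ i j‖ ≤ C) (i : ι) (j : κ) : lift₂ φ C hC h (ue i) (ue j) = φ i j := by
  rw [lift₂, lift_ue, lift_ue]

theorem L1.hasSum_ue [DecidableEq ι] (a : L1 ι) : HasSum (fun i => a i • (ue i : L1 ι)) a := by
  have h2 := lp.hasSum_single (p := 1) (by norm_num) a
  refine h2.congr_fun fun i => ?_
  unfold ue
  rw [← lp.single_smul]
  simp

omit [CompleteSpace Y] in
/-- Two continuous linear maps on `ℓ¹` which agree on the unit vectors are equal. -/
theorem L1.ext_ue [DecidableEq ι] {A B : L1 ι →L[ℂ] Y} (h : ∀ i, A (ue i) = B (ue i)) : A = B := by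
  ext a
  have h1 := L1.hasSum_ue a
  have h3 := h1.mapL A
  have h4 := h1.mapL B
  refine h3.unique ?_
  refine h4.congr_fun fun i => ?_
  rw [map_smul, map_smul, h i]

end lift

/-- The weight. -/
noncomputable def om (m : ℤ × ℤ) : ℝ := Real.exp (|(m.1 : ℝ)| + |(m.2 : ℝ)|)

theorem om_pos (m : ℤ × ℤ) : 0 < om m := Real.exp_pos _

theorem om_ge (m : ℤ × ℤ) : 1 ≤ om m := Real.one_le_exp (by positivity)

theorem om_zero : om 0 = 1 := by simp [om]

theorem om_neg (m : ℤ × ℤ) : om (-m) = om m := by simp [om]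

theorem om_add (m l : ℤ × ℤ) : om (m + l) ≤ om m * om l := by
  rw [om, om, om, ← Real.exp_add]
  refine Real.exp_le_exp.mpr ?_
  have h1 := abs_add_le (m.1 : ℝ) l.1
  have h2 := abs_add_le (m.2 : ℝ) l.2
  simp only [Prod.fst_add, Prod.snd_add, Int.cast_add]
  linarith

/-- The weighted Wiener algebra of all `∑ a_m e^{i m z}` with `∑ |a_m| om m < ∞` (the underlying
family is `a_m * om m`). -/
def Al : Type := L1 (ℤ × ℤ)

noncomputable instance : NormedAddCommGroup Al := inferInstanceAs (NormedAddCommGroup (L1 (ℤ × ℤ)))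
noncomputable instance : NormedSpace ℂ Al := inferInstanceAs (NormedSpace ℂ (L1 (ℤ × ℤ)))
instance : CompleteSpace Al := inferInstanceAs (CompleteSpace (L1 (ℤ × ℤ)))

/-- The coefficient. -/
noncomputable def cf (a : Al) (j : ℤ × ℤ) : ℂ := (show L1 (ℤ × ℤ) from a) j / om j

/-- The unit vector of index `j`. -/
noncomputable def e1 (j : ℤ × ℤ) : Al := (ue j : L1 (ℤ × ℤ))

/-- The monomial `e^{i m z}`. -/
noncomputable def mon (j : ℤ × ℤ) : Al := (om j : ℂ) • e1 j

theorem om_ne (j : ℤ × ℤ) : (om j : ℂ) ≠ 0 := by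
  exact_mod_cast (om_pos j).ne'

theorem norm_om (j : ℤ × ℤ) : ‖(om j : ℂ)‖ = om j := by
  rw [Complex.norm_real, Real.norm_eq_abs, abs_of_pos (om_pos j)]

theorem norm_mulAux (i j : ℤ × ℤ) :
    ‖((om (i + j) / (om i * om j) : ℝ) : ℂ) • (ue (i + j) : L1 (ℤ × ℤ))‖ ≤ 1 := by
  have h1 := om_pos i
  have h2 := om_pos j
  have h3 := om_pos (i + j)
  rw [norm_smul, norm_ue, mul_one, Complex.norm_real, Real.norm_eq_abs,
    abs_of_nonneg (by positivity), div_le_one (by positivity)]
  exact om_add i j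

/-- The product as a bilinear map. -/
noncomputable def mulL : Al →L[ℂ] Al →L[ℂ] Al :=
  (lift₂ (fun i j : ℤ × ℤ => ((om (i + j) / (om i * om j) : ℝ) : ℂ) • (ue (i + j) : L1 (ℤ × ℤ)))
    1 zero_le_one norm_mulAux : L1 (ℤ × ℤ) →L[ℂ] L1 (ℤ × ℤ) →L[ℂ] L1 (ℤ × ℤ))

theorem norm_mon (j : ℤ × ℤ) : ‖mon j‖ = om j := by
  show ‖(om j : ℂ) • (ue j : L1 (ℤ × ℤ))‖ = om j
  rw [norm_smul, norm_ue, mul_one, norm_om]

section
variable {Y : Type} [NormedAddCommGroup Y] [NormedSpace ℂ Y] [CompleteSpace Y]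

omit [CompleteSpace Y] in
theorem lft_aux (φ : ℤ × ℤ → Y) (C : ℝ) (h : ∀ j, ‖φ j‖ ≤ C * om j) (j : ℤ × ℤ) :
    ‖(om j : ℂ)⁻¹ • φ j‖ ≤ C := by
  have h1 := om_pos j
  rw [norm_smul, norm_inv, norm_om, inv_mul_le_iff₀ h1, mul_comm]
  exact h j

/-- The continuous linear map with `mon j ↦ φ j`. -/
noncomputable def lft (φ : ℤ × ℤ → Y) (C : ℝ) (h : ∀ j, ‖φ j‖ ≤ C * om j) : Al →L[ℂ] Y :=
  (lift (fun j => (om j : ℂ)⁻¹ • φ j) C (lft_aux φ C h) : L1 (ℤ × ℤ) →L[ℂ] Y)

theorem lft_mon (φ : ℤ × ℤ → Y) (C : ℝ) (h : ∀ j, ‖φ j‖ ≤ C * om j) (j : ℤ × ℤ) :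
    lft φ C h (mon j) = φ j := by
  show lift _ C _ ((om j : ℂ) • (ue j : L1 (ℤ × ℤ))) = φ j
  rw [map_smul, lift_ue, smul_smul, mul_inv_cancel₀ (om_ne j), one_smul]

theorem norm_lft_le (φ : ℤ × ℤ → Y) (C : ℝ) (hC : 0 ≤ C) (h : ∀ j, ‖φ j‖ ≤ C * om j) :
    ‖lft φ C h‖ ≤ C := norm_lift_le _ C hC _

theorem hasSum_mon (a : Al) : HasSum (fun j => cf a j • mon j) a := by
  have h := L1.hasSum_ue (show L1 (ℤ × ℤ) from a)
  refine h.congr_fun fun j => ?_
  show cf a j • ((om j : ℂ) • (ue j : L1 (ℤ × ℤ))) = _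
  rw [smul_smul, cf, div_mul_cancel₀ _ (om_ne j)]

omit [CompleteSpace Y] in
theorem ext_mon {F G : Al →L[ℂ] Y} (h : ∀ j, F (mon j) = G (mon j)) : F = G := by
  ext a
  have h1 := hasSum_mon a
  refine (h1.mapL F).unique ((h1.mapL G).congr_fun fun i => ?_)
  rw [map_smul, map_smul, h i]

end

theorem mulL_mon (i j : ℤ × ℤ) : mulL (mon i) (mon j) = mon (i + j) := by
  have h3 : mulL (e1 i) (e1 j) = ((om (i + j) / (om i * om j) : ℝ) : ℂ) • e1 (i + j) :=
    lift₂_ue (fun i j : ℤ × ℤ => ((om (i + j) / (om i * om j) : ℝ) : ℂ) •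
      (ue (i + j) : L1 (ℤ × ℤ))) 1 zero_le_one norm_mulAux i j
  rw [mon, mon, map_smul, map_smul, smul_apply]
  rw [h3, smul_smul, smul_smul, mon]
  have h4 := om_ne i
  have h5 := om_ne j
  congr 1
  push_cast
  field_simp

theorem mulL_comm (a b : Al) : mulL a b = mulL b a := by
  have h : mulL = mulL.flip := by
    refine ext_mon fun i => ext_mon fun j => ?_
    rw [ContinuousLinearMap.flip_apply, mulL_mon, mulL_mon, add_comm]
  rw [h, ContinuousLinearMap.flip_apply, ← h]

theorem mulL_assoc (a b c : Al) : mulL (mulL a b) c = mulL a (mulL b c) := by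
  have h1 : ∀ (i j : ℤ × ℤ) (c : Al), mulL (mulL (mon i) (mon j)) c =
      mulL (mon i) (mulL (mon j) c) := by
    intro i j c
    have : mulL (mulL (mon i) (mon j)) = (mulL (mon i)).comp (mulL (mon j)) := by
      refine ext_mon fun k => ?_
      rw [ContinuousLinearMap.comp_apply, mulL_mon, mulL_mon, mulL_mon, mulL_mon, add_assoc]
    rw [this, ContinuousLinearMap.comp_apply]
  have h2 : ∀ (i : ℤ × ℤ) (b c : Al), mulL (mulL (mon i) b) c =
      mulL (mon i) (mulL b c) := by
    intro i b c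
    have : (mulL.flip c).comp (mulL (mon i)) =
        (mulL (mon i)).comp (mulL.flip c) := by
      refine ext_mon fun k => ?_
      simp only [ContinuousLinearMap.comp_apply, ContinuousLinearMap.flip_apply]
      exact h1 i k c
    have h3 := DFunLike.congr_fun this b
    simpa only [ContinuousLinearMap.comp_apply, ContinuousLinearMap.flip_apply] using h3
  have : (mulL.flip c).comp (mulL.flip b) = mulL.flip (mulL b c) := by
    refine ext_mon fun k => ?_
    simp only [ContinuousLinearMap.comp_apply, ContinuousLinearMap.flip_apply]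
    exact h2 k b c
  have h3 := DFunLike.congr_fun this a
  simpa only [ContinuousLinearMap.comp_apply, ContinuousLinearMap.flip_apply] using h3

theorem mulL_one (a : Al) : mulL (mon 0) a = a := by
  have : mulL (mon 0) = ContinuousLinearMap.id ℂ Al := by
    refine ext_mon fun k => ?_
    rw [mulL_mon, zero_add, ContinuousLinearMap.id_apply]
  rw [this, ContinuousLinearMap.id_apply]

noncomputable instance instCommRing : CommRing Al where
  __ := (inferInstance : AddCommGroup Al)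
  mul a b := mulL a b
  one := mon 0
  left_distrib a b c := by
    show mulL a (b + c) = mulL a b + mulL a c
    rw [map_add]
  right_distrib a b c := by
    show mulL (a + b) c = mulL a c + mulL b c
    rw [map_add, add_apply]
  zero_mul a := by
    show mulL 0 a = 0
    rw [map_zero, zero_apply]
  mul_zero a := by
    show mulL a 0 = 0
    rw [map_zero]
  mul_assoc a b c := mulL_assoc a b c
  one_mul a := mulL_one a
  mul_one a := by
    show mulL a (mon 0) = a
    rw [mulL_comm, mulL_one]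
  mul_comm a b := mulL_comm a b

theorem mul_def (a b : Al) : a * b = mulL a b := rfl

theorem one_def : (1 : Al) = mon 0 := rfl

noncomputable instance instNormedCommRing : NormedCommRing Al where
  __ := (inferInstance : NormedAddCommGroup Al)
  __ := (instCommRing : CommRing Al)
  norm_mul_le a b := by
    have h := mulL.le_opNorm₂ a b
    have h2 : ‖mulL‖ ≤ 1 := norm_lift_le _ 1 zero_le_one fun i =>
      norm_lift_le _ 1 zero_le_one (norm_mulAux i)
    calc ‖a * b‖ = ‖mulL a b‖ := rfl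
      _ ≤ ‖mulL‖ * ‖a‖ * ‖b‖ := h
      _ ≤ 1 * ‖a‖ * ‖b‖ := by gcongr
      _ = ‖a‖ * ‖b‖ := by rw [one_mul]

instance instNormOne : NormOneClass Al := ⟨by rw [one_def, norm_mon, om_zero]⟩

noncomputable instance instAlgebra : Algebra ℂ Al := Algebra.ofModule
  (by
    intro r x y
    show mulL (r • x) y = r • mulL x y
    rw [map_smul, smul_apply])
  (by
    intro r x y
    show mulL x (r • y) = r • mulL x y
    rw [map_smul])

noncomputable instance instNormedAlgebra : NormedAlgebra ℂ Al where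
  norm_smul_le := norm_smul_le

theorem mon_mul_mon (i j : ℤ × ℤ) : mon i * mon j = mon (i + j) := mulL_mon i j

/-- Real-linear maps agreeing on all `c • mon j` are equal. -/
theorem ext_monR {Z : Type} [NormedAddCommGroup Z] [NormedSpace ℝ Z]
    {F G : Al →L[ℝ] Z} (h : ∀ (c : ℂ) j, F (c • mon j) = G (c • mon j)) : F = G := by
  ext a
  have h1 := hasSum_mon a
  exact (h1.mapL F).unique ((h1.mapL G).congr_fun fun i => h _ i)

end Run7.h99.WB
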