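import Mathlib
import Pool.Agent.Run7.h99.WB.Alg

/-!
Evaluation of elements of the Wiener algebra, with polynomially bounded symbols.
-/

open Set Filter Topology

namespace Run7.h99.WB

/-- The character. -/
noncomputable def ee (m : ℤ × ℤ) (z : ℝ × ℝ) : ℂ :=
  Complex.exp (((m.1 * z.1 + m.2 * z.2 : ℝ) : ℂ) * Complex.I)

theorem ee_add (m l : ℤ × ℤ) (z : ℝ × ℝ) : ee (m + l) z = ee m z * ee l z := by
  rw [ee, ee, ee, ← Complex.exp_add]
  congr 1
  push_cast [Prod.fst_add, Prod.snd_add]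
  ring

theorem ee_zero (z : ℝ × ℝ) : ee 0 z = 1 := by simp [ee]

theorem norm_ee (m : ℤ × ℤ) (z : ℝ × ℝ) : ‖ee m z‖ = 1 := by
  rw [ee, Complex.norm_exp_ofReal_mul_I]

theorem conj_ee (m : ℤ × ℤ) (z : ℝ × ℝ) : (starRingEnd ℂ) (ee m z) = ee (-m) z := by
  rw [ee, ← Complex.exp_conj, ee]
  congr 1
  simp
  ring

theorem ee_add_right (m : ℤ × ℤ) (z h : ℝ × ℝ) : ee m (z + h) = ee m z * ee m h := by
  rw [ee, ee, ee, ← Complex.exp_add]
  congr 1
  push_cast [Prod.fst_add, Prod.snd_add]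
  ring

/-- size of an index -/
noncomputable def sz (m : ℤ × ℤ) : ℝ := 1 + (|(m.1 : ℝ)| + |(m.2 : ℝ)|)

theorem sz_ge (m : ℤ × ℤ) : 1 ≤ sz m := by
  have := abs_nonneg (m.1 : ℝ)
  have := abs_nonneg (m.2 : ℝ)
  rw [sz]
  linarith

theorem sz_pow_le (N : ℕ) (m : ℤ × ℤ) :
    sz m ^ N ≤ ((N.factorial : ℝ) * Real.exp 1) * om m := by
  have h0 := sz_ge m
  have h1 := Real.pow_div_factorial_le_exp (x := sz m) (by linarith) N
  rw [div_le_iff₀ (by positivity)] at h1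
  refine h1.trans (le_of_eq ?_)
  rw [sz, Real.exp_add, om]
  ring

/-- Polynomially bounded symbols. -/
def PB (σ : ℤ × ℤ → ℂ) : Prop := ∃ (C : ℝ) (N : ℕ), 0 ≤ C ∧ ∀ m, ‖σ m‖ ≤ C * sz m ^ N

theorem PB.bound {σ : ℤ × ℤ → ℂ} (h : PB σ) : ∃ C : ℝ, 0 ≤ C ∧ ∀ m, ‖σ m‖ ≤ C * om m := by
  obtain ⟨C, N, hC, h⟩ := h
  refine ⟨C * ((N.factorial : ℝ) * Real.exp 1), by positivity, fun m => (h m).trans ?_⟩
  rw [mul_assoc]
  exact mul_le_mul_of_nonneg_left (sz_pow_le N m) hC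

theorem PB.of_bdd {σ : ℤ × ℤ → ℂ} (C : ℝ) (h : ∀ m, ‖σ m‖ ≤ C) : PB σ := by
  refine ⟨C, 0, (norm_nonneg _).trans (h 0), fun m => ?_⟩
  simpa using h m

theorem PB.mul {σ τ : ℤ × ℤ → ℂ} (h : PB σ) (h' : PB τ) : PB (fun m => σ m * τ m) := by
  obtain ⟨C, N, hC, h⟩ := h
  obtain ⟨C', N', hC', h'⟩ := h'
  refine ⟨C * C', N + N', by positivity, fun m => ?_⟩
  rw [norm_mul, pow_add]
  calc ‖σ m‖ * ‖τ m‖ ≤ (C * sz m ^ N) * (C' * sz m ^ N') := by
        have := sz_ge m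
        exact mul_le_mul (h m) (h' m) (norm_nonneg _) (by positivity)
    _ = _ := by ring

theorem PB.one : PB (fun _ => 1) := PB.of_bdd 1 (by simp)

/-- symbol of the first derivative -/
noncomputable def s1 (m : ℤ × ℤ) : ℂ := Complex.I * (m.1 : ℝ)

/-- symbol of the second derivative -/
noncomputable def s2 (m : ℤ × ℤ) : ℂ := Complex.I * (m.2 : ℝ)

theorem PB.s1 : PB s1 := by
  refine ⟨1, 1, zero_le_one, fun m => ?_⟩
  rw [WB.s1, norm_mul, Complex.norm_I, Complex.norm_real, Real.norm_eq_abs, sz]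
  have := abs_nonneg (m.2 : ℝ)
  linarith

theorem PB.s2 : PB s2 := by
  refine ⟨1, 1, zero_le_one, fun m => ?_⟩
  rw [WB.s2, norm_mul, Complex.norm_I, Complex.norm_real, Real.norm_eq_abs, sz]
  have := abs_nonneg (m.1 : ℝ)
  linarith

theorem norm_le_of_mon (L : Al →L[ℂ] ℂ) (C : ℝ) (hC : 0 ≤ C) (h : ∀ m, ‖L (mon m)‖ ≤ C * om m) :
    ‖L‖ ≤ C := by
  have : L = lft (fun m => L (mon m)) C h := ext_mon fun m => by rw [lft_mon]
  rw [this]
  exact norm_lft_le _ C hC _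

open Classical in
/-- evaluation with a symbol -/
noncomputable def ev (σ : ℤ × ℤ → ℂ) (z : ℝ × ℝ) : Al →L[ℂ] ℂ :=
  if h : ∃ C : ℝ, 0 ≤ C ∧ ∀ m, ‖σ m‖ ≤ C * om m then
    lft (fun m => σ m * ee m z) h.choose
      (fun m => by rw [norm_mul, norm_ee, mul_one]; exact h.choose_spec.2 m)
  else 0

theorem ev_mon {σ : ℤ × ℤ → ℂ} (h : PB σ) (z : ℝ × ℝ) (m : ℤ × ℤ) :
    ev σ z (mon m) = σ m * ee m z := by
  rw [ev, dif_pos h.bound, lft_mon]

theorem norm_ev_le {σ : ℤ × ℤ → ℂ} (h : PB σ) (z : ℝ × ℝ) (C : ℝ) (hC : 0 ≤ C)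
    (hb : ∀ m, ‖σ m‖ ≤ C * om m) : ‖ev σ z‖ ≤ C := by
  refine norm_le_of_mon _ C hC fun m => ?_
  rw [ev_mon h, norm_mul, norm_ee, mul_one]
  exact hb m

theorem norm_exp_sub_le (s : ℝ) : ‖Complex.exp (s * Complex.I) - 1 - s * Complex.I‖ ≤ 2 * s ^ 2 := by
  rcases le_or_gt |s| 1 with h | h
  · have h1 := Complex.norm_exp_sub_one_sub_id_le (x := s * Complex.I) (by simpa using h)
    rw [norm_mul, Complex.norm_I, mul_one, Complex.norm_real, Real.norm_eq_abs, sq_abs] at h1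
    nlinarith [sq_nonneg s]
  · have h1 : ‖Complex.exp (s * Complex.I) - 1‖ ≤ |s| := by
      have := Real.norm_exp_I_mul_ofReal_sub_one_le (x := s)
      rwa [mul_comm, Real.norm_eq_abs] at this
    have h2 : ‖(s : ℂ) * Complex.I‖ = |s| := by simp
    have h3 := norm_sub_le (Complex.exp (s * Complex.I) - 1) (s * Complex.I)
    rw [h2] at h3
    nlinarith [sq_abs s, abs_nonneg s]

/-- the derivative -/
noncomputable def dev (σ : ℤ × ℤ → ℂ) (z : ℝ × ℝ) : ℝ × ℝ →L[ℝ] (Al →L[ℂ] ℂ) :=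
  (ContinuousLinearMap.fst ℝ ℝ ℝ).smulRight (ev (fun m => s1 m * σ m) z) +
    (ContinuousLinearMap.snd ℝ ℝ ℝ).smulRight (ev (fun m => s2 m * σ m) z)

theorem ev_hasFDerivAt {σ : ℤ × ℤ → ℂ} (h : PB σ) (z : ℝ × ℝ) :
    HasFDerivAt (fun z => ev σ z) (dev σ z) z := by
  obtain ⟨C, N, hC, hb⟩ := h
  have hσ : PB σ := ⟨C, N, hC, hb⟩
  rw [hasFDerivAt_iff_isLittleO_nhds_zero]
  have key : ∀ u : ℝ × ℝ, ‖ev σ (z + u) - ev σ z - dev σ z u‖ ≤
      (C * ((((N + 2).factorial : ℕ) : ℝ) * Real.exp 1) * 2) * ‖‖u‖ ^ 2‖ := by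
    intro u
    refine norm_le_of_mon _ _ (by positivity) fun m => ?_
    have e1 : (ev σ (z + u) - ev σ z - dev σ z u) (mon m) =
        σ m * ee m z * (Complex.exp ((m.1 * u.1 + m.2 * u.2 : ℝ) * Complex.I) - 1 -
          (m.1 * u.1 + m.2 * u.2 : ℝ) * Complex.I) := by
      simp only [dev, sub_apply, add_apply,
        ContinuousLinearMap.smulRight_apply, ContinuousLinearMap.coe_fst',
        ContinuousLinearMap.coe_snd', smul_apply]
      rw [ev_mon hσ, ev_mon hσ, ev_mon (PB.s1.mul hσ), ev_mon (PB.s2.mul hσ), ee_add_right]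
      simp only [ee, s1, s2, Complex.real_smul]
      push_cast
      ring
    rw [e1, norm_mul, norm_mul, norm_ee, mul_one, Real.norm_eq_abs, abs_of_nonneg (sq_nonneg _)]
    have h1 := norm_exp_sub_le (m.1 * u.1 + m.2 * u.2)
    have h2 : |(m.1 * u.1 + m.2 * u.2 : ℝ)| ≤ sz m * ‖u‖ := by
      have hu1 : |u.1| ≤ ‖u‖ := norm_fst_le u
      have hu2 : |u.2| ≤ ‖u‖ := norm_snd_le u
      calc |(m.1 * u.1 + m.2 * u.2 : ℝ)| ≤ |(m.1 * u.1 : ℝ)| + |(m.2 * u.2 : ℝ)| := abs_add_le _ _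
        _ = |(m.1 : ℝ)| * |u.1| + |(m.2 : ℝ)| * |u.2| := by rw [abs_mul, abs_mul]
        _ ≤ |(m.1 : ℝ)| * ‖u‖ + |(m.2 : ℝ)| * ‖u‖ := by gcongr
        _ ≤ sz m * ‖u‖ := by rw [sz]; nlinarith [norm_nonneg u]
    have h3 : (m.1 * u.1 + m.2 * u.2 : ℝ) ^ 2 ≤ (sz m * ‖u‖) ^ 2 := by
      rw [← sq_abs]
      exact pow_le_pow_left₀ (abs_nonneg _) h2 2
    have h4 := sz_pow_le (N + 2) m
    have h5 := sz_ge m
    calc ‖σ m‖ * _ ≤ (C * sz m ^ N) * (2 * (sz m * ‖u‖) ^ 2) := by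
          refine mul_le_mul (hb m) (h1.trans (by linarith)) (norm_nonneg _) (by positivity)
      _ = C * 2 * ‖u‖ ^ 2 * sz m ^ (N + 2) := by ring
      _ ≤ C * 2 * ‖u‖ ^ 2 * ((((N + 2).factorial : ℝ) * Real.exp 1) * om m) := by
          refine mul_le_mul_of_nonneg_left h4 (by positivity)
      _ = _ := by ring
  refine (Asymptotics.IsBigO.of_bound _ (Eventually.of_forall key)).trans_isLittleO ?_
  exact Asymptotics.isLittleO_norm_pow_id one_lt_two

theorem ev_contDiff_nat (n : ℕ) : ∀ {σ : ℤ × ℤ → ℂ}, PB σ → ContDiff ℝ n (fun z => ev σ z) := by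
  induction n with
  | zero =>
    intro σ h
    have : Continuous (fun z => ev σ z) := continuous_iff_continuousAt.mpr
      fun z => (ev_hasFDerivAt h z).continuousAt
    exact_mod_cast contDiff_zero.mpr this
  | succ n ih =>
    intro σ h
    have h2 : ContDiff ℝ ((n : WithTop ℕ∞) + 1) (fun z => ev σ z) := by
      rw [contDiff_succ_iff_hasFDerivAt]
      refine ⟨fun z => dev σ z, ?_, fun z => ev_hasFDerivAt h z⟩
      have a1 := ih (PB.s1.mul h)
      have a2 := ih (PB.s2.mul h)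
      exact (contDiff_const.smulRight a1).add (contDiff_const.smulRight a2)
    exact_mod_cast h2

theorem ev_contDiff {σ : ℤ × ℤ → ℂ} (h : PB σ) : ContDiff ℝ (⊤ : ℕ∞) (fun z => ev σ z) :=
  contDiff_infty.mpr fun n => ev_contDiff_nat n h

theorem ee_per1 (m : ℤ × ℤ) (z : ℝ × ℝ) : ee m (z.1 + 2 * Real.pi, z.2) = ee m z := by
  rw [ee, ee]
  have : (((m.1 : ℝ) * (z.1 + 2 * Real.pi) + (m.2 : ℝ) * z.2 : ℝ) : ℂ) * Complex.I =
      (((m.1 : ℝ) * z.1 + (m.2 : ℝ) * z.2 : ℝ) : ℂ) * Complex.I + m.1 * (2 * Real.pi * Complex.I) := by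
    push_cast
    ring
  show Complex.exp ((((m.1 : ℝ) * (z.1 + 2 * Real.pi) + (m.2 : ℝ) * z.2 : ℝ) : ℂ) * Complex.I) = _
  rw [this, Complex.exp_add, Complex.exp_int_mul_two_pi_mul_I, mul_one]

theorem ee_per2 (m : ℤ × ℤ) (z : ℝ × ℝ) : ee m (z.1, z.2 + 2 * Real.pi) = ee m z := by
  rw [ee, ee]
  have : (((m.1 : ℝ) * z.1 + (m.2 : ℝ) * (z.2 + 2 * Real.pi) : ℝ) : ℂ) * Complex.I =
      (((m.1 : ℝ) * z.1 + (m.2 : ℝ) * z.2 : ℝ) : ℂ) * Complex.I + m.2 * (2 * Real.pi * Complex.I) := by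
    push_cast
    ring
  show Complex.exp ((((m.1 : ℝ) * z.1 + (m.2 : ℝ) * (z.2 + 2 * Real.pi) : ℝ) : ℂ) * Complex.I) = _
  rw [this, Complex.exp_add, Complex.exp_int_mul_two_pi_mul_I, mul_one]

theorem ev_per1 {σ : ℤ × ℤ → ℂ} (h : PB σ) (x y : ℝ) :
    ev σ (x + 2 * Real.pi, y) = ev σ (x, y) :=
  ext_mon fun m => by rw [ev_mon h, ev_mon h, ← ee_per1 m (x, y)]

theorem ev_per2 {σ : ℤ × ℤ → ℂ} (h : PB σ) (x y : ℝ) :
    ev σ (x, y + 2 * Real.pi) = ev σ (x, y) :=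
  ext_mon fun m => by rw [ev_mon h, ev_mon h, ← ee_per2 m (x, y)]

theorem ev_mul (z : ℝ × ℝ) (u v : Al) : ev (fun _ => 1) z (u * v) =
    ev (fun _ => 1) z u * ev (fun _ => 1) z v := by
  have h1 : ∀ (m : ℤ × ℤ) (v : Al), ev (fun _ => 1) z (mon m * v) =
      ev (fun _ => 1) z (mon m) * ev (fun _ => 1) z v := by
    intro m v
    have : (ev (fun _ => 1) z).comp (mulL (mon m)) =
        (ev (fun _ => 1) z (mon m)) • (ev (fun _ => 1) z) := by
      refine ext_mon fun l => ?_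
      rw [ContinuousLinearMap.comp_apply, mulL_mon, smul_apply, ev_mon PB.one, ev_mon PB.one,
        ev_mon PB.one, ee_add, smul_eq_mul]
      ring
    exact DFunLike.congr_fun this v
  have : (ev (fun _ => 1) z).comp (mulL.flip v) =
      (ev (fun _ => 1) z v) • (ev (fun _ => 1) z) := by
    refine ext_mon fun l => ?_
    rw [ContinuousLinearMap.comp_apply, ContinuousLinearMap.flip_apply, smul_apply, smul_eq_mul,
      mul_comm]
    exact h1 l v
  have h3 := DFunLike.congr_fun this u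
  rw [smul_apply, smul_eq_mul, mul_comm] at h3
  exact h3

theorem ev_one (z : ℝ × ℝ) : ev (fun _ => 1) z 1 = 1 := by
  rw [one_def, ev_mon PB.one, ee_zero, mul_one]

/-- indicator of the modes independent of the second variable -/
noncomputable def i0 (m : ℤ × ℤ) : ℂ := if m.2 = 0 then 1 else 0

theorem PB.i0 : PB i0 := PB.of_bdd 1 fun m => by
  rw [WB.i0]
  split <;> simp

theorem ev_mean {σ : ℤ × ℤ → ℂ} (h : PB σ) (x y₀ : ℝ) (a : Al) :
    ((2 * Real.pi : ℝ) : ℂ)⁻¹ * ∫ y in (0 : ℝ)..(2 * Real.pi), ev σ (x, y) a =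
      ev (fun m => i0 m * σ m) (x, y₀) a := by
  have hc : Continuous (fun y : ℝ => ev σ (x, y)) :=
    (ev_contDiff h).continuous.comp (by fun_prop)
  have hpi : ((2 * Real.pi : ℝ) : ℂ) ≠ 0 := by
    exact_mod_cast Real.two_pi_pos.ne'
  have h1 : (((2 * Real.pi : ℝ) : ℂ)⁻¹ • ∫ y in (0 : ℝ)..(2 * Real.pi), ev σ (x, y)) =
      ev (fun m => i0 m * σ m) (x, y₀) := by
    refine ext_mon fun m => ?_
    rw [smul_apply, ContinuousLinearMap.intervalIntegral_apply (hc.intervalIntegrable _ _),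
      ev_mon (PB.i0.mul h)]
    simp only [ev_mon h]
    rw [intervalIntegral.integral_const_mul, smul_eq_mul]
    have h2 : ∀ y : ℝ, ee m (x, y) = ee m (x, 0) * Complex.exp (((m.2 : ℂ) * Complex.I) * y) := by
      intro y
      rw [ee, ee, ← Complex.exp_add]
      congr 1
      push_cast
      ring
    have h2' : (fun y : ℝ => ee m (x, y)) =
        fun y : ℝ => ee m (x, 0) * Complex.exp (((m.2 : ℂ) * Complex.I) * y) := funext h2
    rw [h2', intervalIntegral.integral_const_mul]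
    rcases eq_or_ne m.2 0 with h3 | h3
    · have : ee m (x, y₀) = ee m (x, 0) := by rw [h2 y₀, h3]; simp
      rw [i0, if_pos h3, h3, this]
      simp only [Int.cast_zero, zero_mul, Complex.exp_zero]
      rw [intervalIntegral.integral_const]
      simp only [sub_zero, Complex.real_smul, mul_one, one_mul]
      push_cast at hpi ⊢
      field_simp
    · have h4 : ((m.2 : ℂ) * Complex.I) ≠ 0 := by
        simp [h3]
      rw [integral_exp_mul_complex h4]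
      have h5 : Complex.exp (((m.2 : ℂ) * Complex.I) * ((2 * Real.pi : ℝ) : ℂ)) = 1 := by
        have := Complex.exp_int_mul_two_pi_mul_I m.2
        rw [← this]
        congr 1
        push_cast
        ring
      rw [h5]
      simp [i0, h3]
  have h2 := DFunLike.congr_fun h1 a
  rw [smul_apply, ContinuousLinearMap.intervalIntegral_apply (hc.intervalIntegrable _ _),
    smul_eq_mul] at h2
  exact h2

end Run7.h99.WB
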