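import Mathlib
import Pool.Agent.Run7.h99.WB.Ev

/-!
The real part of the Wiener algebra: elements with real values.
-/

open Set Filter Topology

namespace Run7.h99.WB

/-- coefficientwise conjugation -/
noncomputable def cj (a : Al) : Al := (star (show L1 (ℤ × ℤ) from a) : L1 (ℤ × ℤ))

theorem cj_add (a b : Al) : cj (a + b) = cj a + cj b := star_add (R := L1 (ℤ × ℤ)) a b

theorem cj_smul (c : ℂ) (a : Al) : cj (c • a) = (starRingEnd ℂ c) • cj a :=
  star_smul (R := ℂ) (A := L1 (ℤ × ℤ)) c a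

theorem norm_cj (a : Al) : ‖cj a‖ = ‖a‖ := norm_star (E := L1 (ℤ × ℤ)) a

theorem cj_mon (m : ℤ × ℤ) : cj (mon m) = mon m := by
  rw [mon, cj_smul, Complex.conj_ofReal]
  congr 1
  show (star (ue m : L1 (ℤ × ℤ)) : L1 (ℤ × ℤ)) = ue m
  ext i
  rw [lp.star_apply]
  rcases eq_or_ne i m with h | h
  · subst h
    simp [ue]
  · have : (ue m : L1 (ℤ × ℤ)) i = 0 := by
      unfold ue
      exact lp.single_apply_ne 1 m 1 h
    rw [this, star_zero]

/-- reflection of the indices -/
noncomputable def refl : Al →L[ℂ] Al :=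
  lft (fun m => mon (-m)) 1 fun m => by rw [norm_mon, om_neg, one_mul]

theorem refl_mon (m : ℤ × ℤ) : refl (mon m) = mon (-m) := by rw [refl, lft_mon]

/-- the conjugate function -/
noncomputable def st : Al →L[ℝ] Al :=
  LinearMap.mkContinuous
    { toFun := fun a => refl (cj a)
      map_add' := fun a b => by rw [cj_add, map_add]
      map_smul' := fun c a => by
        rw [RingHom.id_apply, ← Complex.coe_smul, cj_smul, Complex.conj_ofReal, map_smul,
          Complex.coe_smul] } 1 fun a => by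
      have h : ‖refl‖ ≤ 1 := norm_lft_le _ 1 zero_le_one _
      calc ‖refl (cj a)‖ ≤ ‖refl‖ * ‖cj a‖ := refl.le_opNorm _
        _ ≤ 1 * ‖a‖ := by rw [norm_cj]; gcongr

theorem st_smul_mon (c : ℂ) (m : ℤ × ℤ) : st (c • mon m) = (starRingEnd ℂ c) • mon (-m) := by
  show refl (cj (c • mon m)) = _
  rw [cj_smul, map_smul, cj_mon, refl_mon]

theorem st_smul (c : ℂ) (a : Al) : st (c • a) = (starRingEnd ℂ c) • st a := by
  show refl (cj (c • a)) = _
  rw [cj_smul, map_smul]
  rfl

theorem st_mon (m : ℤ × ℤ) : st (mon m) = mon (-m) := by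
  have := st_smul_mon 1 m
  rwa [one_smul, map_one, one_smul] at this

theorem st_mul (a b : Al) : st (a * b) = st a * st b := by
  have h1 : ∀ (m : ℤ × ℤ) (b : Al), st (mon m * b) = st (mon m) * st b := by
    intro m b
    have : st.comp ((mulL (mon m)).restrictScalars ℝ) =
        ((mulL (st (mon m))).restrictScalars ℝ).comp st := by
      refine ext_monR fun c l => ?_
      simp only [ContinuousLinearMap.comp_apply, ContinuousLinearMap.coe_restrictScalars']
      rw [map_smul, mulL_mon, st_smul_mon, st_smul_mon, st_mon, map_smul, mulL_mon, neg_add]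
    exact DFunLike.congr_fun this b
  have : st.comp ((mulL.flip b).restrictScalars ℝ) =
      ((mulL.flip (st b)).restrictScalars ℝ).comp st := by
    refine ext_monR fun c l => ?_
    simp only [ContinuousLinearMap.comp_apply, ContinuousLinearMap.coe_restrictScalars']
    rw [map_smul, st_smul, st_smul_mon, map_smul, ContinuousLinearMap.flip_apply,
      ContinuousLinearMap.flip_apply]
    have := h1 l b
    rw [st_mon] at this
    exact congrArg _ this
  exact DFunLike.congr_fun this a

theorem st_one : st 1 = 1 := by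
  rw [one_def, st_mon, neg_zero]

/-- Real elements. -/
noncomputable def Wsub : Subalgebra ℝ Al where
  carrier := {a | st a = a}
  mul_mem' {a b} ha hb := by
    show st (a * b) = a * b
    rw [st_mul, show st a = a from ha, show st b = b from hb]
  add_mem' {a b} ha hb := by
    show st (a + b) = a + b
    rw [map_add, show st a = a from ha, show st b = b from hb]
  algebraMap_mem' r := by
    show st (algebraMap ℝ Al r) = algebraMap ℝ Al r
    rw [Algebra.algebraMap_eq_smul_one, map_smul, st_one]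

/-- The real Wiener algebra. -/
abbrev WW : Type := ↥Wsub

theorem mem_Wsub {a : Al} : a ∈ Wsub ↔ st a = a := Iff.rfl

instance : CompleteSpace WW := by
  have : IsClosed (Wsub : Set Al) := isClosed_eq st.continuous continuous_id
  exact this.completeSpace_coe

instance : NormOneClass WW := ⟨by
  show ‖(1 : Al)‖ = 1
  exact norm_one⟩

noncomputable example : NormedCommRing WW := inferInstance
noncomputable example : NormedAlgebra ℝ WW := inferInstance

/-- Symmetric symbols. -/
def Sy (σ : ℤ × ℤ → ℂ) : Prop := ∀ m, σ (-m) = (starRingEnd ℂ) (σ m)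

theorem Sy.mul {σ τ : ℤ × ℤ → ℂ} (h : Sy σ) (h' : Sy τ) : Sy (fun m => σ m * τ m) := fun m => by
  show σ (-m) * τ (-m) = _
  rw [h m, h' m, map_mul]

theorem Sy.one : Sy (fun _ => 1) := fun m => by simp

theorem Sy.i0 : Sy i0 := fun m => by
  simp only [WB.i0, Prod.snd_neg, neg_eq_zero]
  split <;> simp

/-- bounded symmetric symbols -/
structure Ok (σ : ℤ × ℤ → ℂ) : Prop where
  bd : ∃ C : ℝ, ∀ m, ‖σ m‖ ≤ C
  sy : Sy σ

theorem Ok.pb {σ : ℤ × ℤ → ℂ} (h : Ok σ) : PB σ := by
  obtain ⟨C, hC⟩ := h.bd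
  exact PB.of_bdd C hC

theorem Ok.i0 : Ok i0 := ⟨⟨1, fun m => by rw [WB.i0]; split <;> simp⟩, Sy.i0⟩

theorem Ok.one : Ok (fun _ => 1) := ⟨⟨1, fun m => by simp⟩, Sy.one⟩

theorem Ok.mul {σ τ : ℤ × ℤ → ℂ} (h : Ok σ) (h' : Ok τ) : Ok (fun m => σ m * τ m) := by
  obtain ⟨C, hC⟩ := h.bd
  obtain ⟨C', hC'⟩ := h'.bd
  refine ⟨⟨C * C', fun m => ?_⟩, h.sy.mul h'.sy⟩
  rw [norm_mul]
  exact mul_le_mul (hC m) (hC' m) (norm_nonneg _) ((norm_nonneg _).trans (hC m))

open Classical in
/-- multiplier -/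
noncomputable def mult (σ : ℤ × ℤ → ℂ) : Al →L[ℂ] Al :=
  if h : ∃ C : ℝ, ∀ m, ‖σ m‖ ≤ C then
    lft (fun m => σ m • mon m) h.choose (fun m => by
      rw [norm_smul, norm_mon]
      exact mul_le_mul_of_nonneg_right (h.choose_spec m) (om_pos m).le)
  else 0

theorem mult_mon {σ : ℤ × ℤ → ℂ} (h : Ok σ) (m : ℤ × ℤ) : mult σ (mon m) = σ m • mon m := by
  rw [mult, dif_pos h.bd, lft_mon]

theorem norm_mult_le {σ : ℤ × ℤ → ℂ} (h : Ok σ) (C : ℝ) (hC : ∀ m, ‖σ m‖ ≤ C) (a : Al) :
    ‖mult σ a‖ ≤ C * ‖a‖ := by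
  have h1 : ∀ m, ‖mult σ (mon m)‖ ≤ C * om m := fun m => by
    rw [mult_mon h, norm_smul, norm_mon]
    exact mul_le_mul_of_nonneg_right (hC m) (om_pos m).le
  have h2 : mult σ = lft (fun m => mult σ (mon m)) C h1 := ext_mon fun m => by rw [lft_mon]
  rw [h2]
  exact (ContinuousLinearMap.le_opNorm _ _).trans
    (mul_le_mul_of_nonneg_right (norm_lft_le _ C ((norm_nonneg _).trans (hC 0)) _) (norm_nonneg _))

theorem st_mult {σ : ℤ × ℤ → ℂ} (h : Ok σ) (a : Al) : st (mult σ a) = mult σ (st a) := by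
  have : st.comp ((mult σ).restrictScalars ℝ) = ((mult σ).restrictScalars ℝ).comp st := by
    refine ext_monR fun c l => ?_
    simp only [ContinuousLinearMap.comp_apply, ContinuousLinearMap.coe_restrictScalars']
    rw [map_smul, mult_mon h, smul_smul, st_smul_mon, st_smul_mon, map_smul, mult_mon h, smul_smul,
      map_mul, h.sy]
  exact DFunLike.congr_fun this a

theorem mult_mult {σ τ : ℤ × ℤ → ℂ} (h : Ok σ) (h' : Ok τ) (a : Al) :
    mult σ (mult τ a) = mult (fun m => σ m * τ m) a := by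
  have : (mult σ).comp (mult τ) = mult (fun m => σ m * τ m) := by
    refine ext_mon fun m => ?_
    rw [ContinuousLinearMap.comp_apply, mult_mon h', map_smul, mult_mon h, mult_mon (h.mul h'),
      smul_smul, mul_comm]
  exact DFunLike.congr_fun this a

theorem ev_mult {σ τ : ℤ × ℤ → ℂ} (h : PB σ) (h' : Ok τ) (z : ℝ × ℝ) (a : Al) :
    ev σ z (mult τ a) = ev (fun m => σ m * τ m) z a := by
  have : (ev σ z).comp (mult τ) = ev (fun m => σ m * τ m) z := by
    refine ext_mon fun m => ?_
    rw [ContinuousLinearMap.comp_apply, mult_mon h', map_smul, ev_mon h, ev_mon (h.mul h'.pb),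
      smul_eq_mul]
    ring
  exact DFunLike.congr_fun this a

theorem conj_ev {σ : ℤ × ℤ → ℂ} (h : PB σ) (hs : Sy σ) (z : ℝ × ℝ) (a : Al) :
    (starRingEnd ℂ) (ev σ z a) = ev σ z (st a) := by
  have : (Complex.conjCLE : ℂ →L[ℝ] ℂ).comp ((ev σ z).restrictScalars ℝ) =
      ((ev σ z).restrictScalars ℝ).comp st := by
    refine ext_monR fun c l => ?_
    show (starRingEnd ℂ) (ev σ z (c • mon l)) = ev σ z (st (c • mon l))
    rw [st_smul_mon, (ev σ z).map_smul, (ev σ z).map_smul, ev_mon h, ev_mon h]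
    simp only [smul_eq_mul, map_mul]
    rw [hs, conj_ee]
  exact DFunLike.congr_fun this a

theorem ev_real {σ : ℤ × ℤ → ℂ} (h : PB σ) (hs : Sy σ) (z : ℝ × ℝ) (a : WW) :
    (((ev σ z (a : Al)).re : ℝ) : ℂ) = ev σ z (a : Al) := by
  have h1 := conj_ev h hs z (a : Al)
  rw [show st (a : Al) = a from a.2] at h1
  exact Complex.conj_eq_iff_re.mp h1

open Classical in
/-- multiplier on the real algebra -/
noncomputable def mu (σ : ℤ × ℤ → ℂ) : WW →L[ℝ] WW :=
  if h : Ok σ then
    LinearMap.mkContinuousOfExistsBound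
      { toFun := fun u => ⟨mult σ (u : Al), by
          rw [mem_Wsub, st_mult h, show st (u : Al) = u from u.2]⟩
        map_add' := fun u v => Subtype.ext (by simp)
        map_smul' := fun c u => Subtype.ext (by
          simp only [SetLike.val_smul, RingHom.id_apply]
          rw [← Complex.coe_smul, map_smul, Complex.coe_smul]) }
      (by
        obtain ⟨C, hC⟩ := h.bd
        exact ⟨C, fun u => norm_mult_le h C hC (u : Al)⟩)
  else 0

theorem mu_coe {σ : ℤ × ℤ → ℂ} (h : Ok σ) (u : WW) : ((mu σ u : WW) : Al) = mult σ (u : Al) := by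
  rw [mu, dif_pos h]
  rfl

theorem norm_mu_le {σ : ℤ × ℤ → ℂ} (h : Ok σ) (C : ℝ) (hC : ∀ m, ‖σ m‖ ≤ C) (u : WW) :
    ‖mu σ u‖ ≤ C * ‖u‖ := by
  have := norm_mult_le h C hC (u : Al)
  rw [← mu_coe h] at this
  exact this

theorem mu_mu {σ τ : ℤ × ℤ → ℂ} (h : Ok σ) (h' : Ok τ) (u : WW) :
    mu σ (mu τ u) = mu (fun m => σ m * τ m) u := by
  refine Subtype.ext ?_
  rw [mu_coe h, mu_coe h', mu_coe (h.mul h'), mult_mult h h']

theorem mu_one (u : WW) : mu (fun _ => 1) u = u := by
  refine Subtype.ext ?_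
  rw [mu_coe Ok.one]
  have : mult (fun _ => 1) = ContinuousLinearMap.id ℂ Al :=
    ext_mon fun m => by rw [mult_mon Ok.one, one_smul, ContinuousLinearMap.id_apply]
  rw [this, ContinuousLinearMap.id_apply]

theorem mu_yi {χ : ℤ × ℤ → ℂ} (h : Ok χ) (hχ : ∀ k j l, χ (k + l, j) = χ (k, j)) (v u : WW)
    (hv : mu i0 v = v) : mu χ (v * u) = v * mu χ u := by
  have h2 : ∀ (m : ℤ × ℤ) (u : Al), mult χ (mult i0 (mon m) * u) = mult i0 (mon m) * mult χ u := by
    intro m u
    have : (mult χ).comp (mulL (mult i0 (mon m))) = (mulL (mult i0 (mon m))).comp (mult χ) := by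
      refine ext_mon fun l => ?_
      simp only [ContinuousLinearMap.comp_apply]
      rw [mult_mon Ok.i0, mult_mon h, map_smul, map_smul, smul_apply, map_smul, mulL_mon,
        mult_mon h]
      rw [smul_smul, smul_smul, i0, mul_comm (χ l)]
      congr 1
      split
      · next h0 =>
        rw [one_mul, one_mul]
        have e1 : m + l = (l.1 + m.1, l.2) := by
          ext
          · simp [add_comm]
          · simp [h0]
        rw [e1, hχ]
      · simp
    exact DFunLike.congr_fun this u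
  have h3 : ∀ v u : Al, mult χ (mult i0 v * u) = mult i0 v * mult χ u := by
    intro v u
    have : (mult χ).comp ((mulL.flip u).comp (mult i0)) =
        (mulL.flip (mult χ u)).comp (mult i0) := by
      refine ext_mon fun m => ?_
      simp only [ContinuousLinearMap.comp_apply, ContinuousLinearMap.flip_apply]
      exact h2 m u
    exact DFunLike.congr_fun this v
  refine Subtype.ext ?_
  rw [mu_coe h]
  show mult χ ((v : Al) * (u : Al)) = (v : Al) * ((mu χ u : WW) : Al)
  rw [mu_coe h]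
  have h4 := h3 (v : Al) (u : Al)
  rw [← mu_coe Ok.i0, hv] at h4
  exact h4

end Run7.h99.WB
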