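import Mathlib
import Pool.Agent.Run7.h99.WB.Re
import Pool.Agent.Run7.h117.Defs

/-!
The functions represented by elements of the real Wiener algebra.
-/

open Set Filter Topology

namespace Run7.h99.WB

open Run7.h117 (Per CD dx dy mY)

/-- the inclusion -/
noncomputable def incl : WW →L[ℝ] Al :=
  LinearMap.mkContinuous Wsub.val.toLinearMap 1 fun u => by
    rw [one_mul]
    exact le_refl ‖(u : Al)‖

theorem incl_apply (u : WW) : incl u = (u : Al) := rfl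

/-- the function value with a symbol -/
noncomputable def er (σ : ℤ × ℤ → ℂ) (x y : ℝ) : WW →L[ℝ] ℝ :=
  Complex.reCLM.comp (((ev σ (x, y)).restrictScalars ℝ).comp incl)

/-- the function -/
noncomputable def fn (σ : ℤ × ℤ → ℂ) (u : WW) : ℝ → ℝ → ℝ := fun x y => er σ x y u

theorem fn_def (σ : ℤ × ℤ → ℂ) (u : WW) (x y : ℝ) : fn σ u x y = (ev σ (x, y) (u : Al)).re := rfl

theorem fn_add (σ : ℤ × ℤ → ℂ) (u v : WW) (x y : ℝ) :
    fn σ (u + v) x y = fn σ u x y + fn σ v x y := map_add _ _ _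

theorem fn_sub (σ : ℤ × ℤ → ℂ) (u v : WW) (x y : ℝ) :
    fn σ (u - v) x y = fn σ u x y - fn σ v x y := map_sub _ _ _

theorem fn_neg (σ : ℤ × ℤ → ℂ) (u : WW) (x y : ℝ) :
    fn σ (-u) x y = -fn σ u x y := map_neg _ _

theorem fn_zero (σ : ℤ × ℤ → ℂ) (x y : ℝ) :
    fn σ 0 x y = 0 := map_zero _

theorem fn_smul (σ : ℤ × ℤ → ℂ) (c : ℝ) (u : WW) (x y : ℝ) :
    fn σ (c • u) x y = c * fn σ u x y := by
  rw [fn, map_smul, smul_eq_mul, fn]

/-- value of an element -/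
noncomputable abbrev f1 (u : WW) : ℝ → ℝ → ℝ := fn (fun _ => 1) u

theorem f1_mul (u v : WW) (x y : ℝ) : f1 (u * v) x y = f1 u x y * f1 v x y := by
  have h : (((f1 (u * v) x y : ℝ)) : ℂ) = ((f1 u x y * f1 v x y : ℝ) : ℂ) := by
    rw [Complex.ofReal_mul]
    simp only [f1, fn_def]
    rw [ev_real PB.one Sy.one, ev_real PB.one Sy.one, ev_real PB.one Sy.one]
    exact ev_mul (x, y) (u : Al) (v : Al)
  exact_mod_cast h

theorem f1_one (x y : ℝ) : f1 1 x y = 1 := by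
  rw [f1, fn_def]
  show (ev (fun _ => 1) (x, y) (1 : Al)).re = 1
  rw [ev_one, Complex.one_re]

/-- evaluation as a ring homomorphism -/
noncomputable def evR (x y : ℝ) : WW →+* ℝ where
  toFun u := f1 u x y
  map_one' := f1_one x y
  map_mul' u v := f1_mul u v x y
  map_zero' := fn_zero _ x y
  map_add' u v := fn_add _ u v x y

theorem evR_cont (x y : ℝ) : Continuous (evR x y) := (er (fun _ => 1) x y).continuous

theorem fn_mu {σ τ : ℤ × ℤ → ℂ} (h : PB σ) (h' : Ok τ) (u : WW) (x y : ℝ) :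
    fn σ (mu τ u) x y = fn (fun m => σ m * τ m) u x y := by
  rw [fn_def, mu_coe h', ev_mult h h', fn_def]

/-- application to a fixed vector, real part -/
noncomputable def apr (u : WW) : (Al →L[ℂ] ℂ) →L[ℝ] ℝ :=
  Complex.reCLM.comp ((ContinuousLinearMap.apply ℂ ℂ (u : Al)).restrictScalars ℝ)

theorem fn_eq_apr (σ : ℤ × ℤ → ℂ) (u : WW) (x y : ℝ) : fn σ u x y = apr u (ev σ (x, y)) := rfl

theorem fn_CD {σ : ℤ × ℤ → ℂ} (h : PB σ) (u : WW) : CD (⊤ : ℕ∞) (fn σ u) := by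
  have h1 : (fun z : ℝ × ℝ => fn σ u z.1 z.2) = fun z => apr u (ev σ z) := by
    funext z
    exact fn_eq_apr σ u z.1 z.2
  rw [CD, h1]
  exact (apr u).contDiff.comp (ev_contDiff h)

theorem fn_hasFDerivAt {σ : ℤ × ℤ → ℂ} (h : PB σ) (u : WW) (z : ℝ × ℝ) :
    HasFDerivAt (fun z : ℝ × ℝ => fn σ u z.1 z.2)
      ((fn (fun m => s1 m * σ m) u z.1 z.2) • ContinuousLinearMap.fst ℝ ℝ ℝ +
        (fn (fun m => s2 m * σ m) u z.1 z.2) • ContinuousLinearMap.snd ℝ ℝ ℝ) z := by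
  have h1 : (fun z : ℝ × ℝ => fn σ u z.1 z.2) = fun z => apr u (ev σ z) := by
    funext z
    exact fn_eq_apr σ u z.1 z.2
  rw [h1]
  have h2 := (apr u).hasFDerivAt.comp z (ev_hasFDerivAt h z)
  refine h2.congr_fderiv ?_
  ext
  · simp [dev, fn_eq_apr]
  · simp [dev, fn_eq_apr]

theorem fn_hasDerivAt_x {σ : ℤ × ℤ → ℂ} (h : PB σ) (u : WW) (x y : ℝ) :
    HasDerivAt (fun s => fn σ u s y) (fn (fun m => s1 m * σ m) u x y) x := by
  have h1 := fn_hasFDerivAt h u (x, y)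
  have h2 : HasDerivAt (fun s : ℝ => (s, y)) ((1 : ℝ), (0 : ℝ)) x :=
    (hasDerivAt_id x).prodMk (hasDerivAt_const x y)
  have h3 := h1.comp_hasDerivAt x h2
  have h4 : ((fun z : ℝ × ℝ => fn σ u z.1 z.2) ∘ fun s : ℝ => (s, y)) = fun s => fn σ u s y := rfl
  rw [h4] at h3
  exact h3.congr_deriv (by simp)

theorem fn_hasDerivAt_y {σ : ℤ × ℤ → ℂ} (h : PB σ) (u : WW) (x y : ℝ) :
    HasDerivAt (fun s => fn σ u x s) (fn (fun m => s2 m * σ m) u x y) y := by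
  have h1 := fn_hasFDerivAt h u (x, y)
  have h2 : HasDerivAt (fun s : ℝ => (x, s)) ((0 : ℝ), (1 : ℝ)) y :=
    (hasDerivAt_const y x).prodMk (hasDerivAt_id y)
  have h3 := h1.comp_hasDerivAt y h2
  have h4 : ((fun z : ℝ × ℝ => fn σ u z.1 z.2) ∘ fun s : ℝ => (x, s)) = fun s => fn σ u x s := rfl
  rw [h4] at h3
  exact h3.congr_deriv (by simp)

theorem dx_fn {σ : ℤ × ℤ → ℂ} (h : PB σ) (u : WW) :
    dx (fn σ u) = fn (fun m => s1 m * σ m) u := by
  funext x y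
  exact (fn_hasDerivAt_x h u x y).deriv

theorem dy_fn {σ : ℤ × ℤ → ℂ} (h : PB σ) (u : WW) :
    dy (fn σ u) = fn (fun m => s2 m * σ m) u := by
  funext x y
  exact (fn_hasDerivAt_y h u x y).deriv

theorem fn_per {σ : ℤ × ℤ → ℂ} (h : PB σ) (u : WW) : Per (fn σ u) := by
  refine ⟨fun x y => ?_, fun x y => ?_⟩
  · rw [fn_def, fn_def, ev_per1 h]
  · rw [fn_def, fn_def, ev_per2 h]

theorem mY_fn {σ : ℤ × ℤ → ℂ} (h : PB σ) (u : WW) (x y₀ : ℝ) :
    mY (fn σ u) x = fn (fun m => i0 m * σ m) u x y₀ := by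
  rw [mY, fn_def, ← ev_mean h x y₀]
  have hc : Continuous (fun y : ℝ => ev σ (x, y) (u : Al)) := by
    have := (ev_contDiff h).continuous.comp (f := fun y : ℝ => (x, y)) (by fun_prop)
    exact (ContinuousLinearMap.apply ℂ ℂ (u : Al)).continuous.comp this
  have h1 : ∫ y in (0 : ℝ)..(2 * Real.pi), fn σ u x y =
      (∫ y in (0 : ℝ)..(2 * Real.pi), ev σ (x, y) (u : Al)).re := by
    have := ContinuousLinearMap.intervalIntegral_comp_comm (μ := MeasureTheory.volume)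
      Complex.reCLM (hc.intervalIntegrable 0 (2 * Real.pi))
    simpa [fn_def] using this
  rw [h1, ← Complex.ofReal_inv, Complex.re_ofReal_mul]

theorem abs_fn_le {σ : ℤ × ℤ → ℂ} (h : PB σ) (C : ℝ) (hC : 0 ≤ C) (hb : ∀ m, ‖σ m‖ ≤ C * om m)
    (u : WW) (x y : ℝ) : |fn σ u x y| ≤ C * ‖u‖ := by
  rw [fn_def]
  refine (Complex.abs_re_le_norm _).trans ?_
  refine ((ev σ (x, y)).le_opNorm _).trans ?_
  exact mul_le_mul_of_nonneg_right (norm_ev_le h _ C hC hb) (norm_nonneg _)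

end Run7.h99.WB
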