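import Mathlib
import Pool.Agent.Run7.h99.WB.Fn

/-!
Special elements of the real Wiener algebra.
-/

open Set Filter Topology

namespace Run7.h99.WB

open Run7.h117 (Per CD dx dy mY rho vv ww ww' AA SS m1 N1)

/-- `cos (m z)` -/
noncomputable def cosm (m : ℤ × ℤ) : WW :=
  ⟨(1 / 2 : ℂ) • (mon m + mon (-m)), by
    rw [mem_Wsub, st_smul, map_add, st_mon, st_mon, neg_neg, add_comm]
    congr 1
    simp [Complex.conj_ofNat]⟩

/-- `sin (m z)` -/
noncomputable def sinm (m : ℤ × ℤ) : WW :=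
  ⟨(-Complex.I / 2 : ℂ) • (mon m - mon (-m)), by
    rw [mem_Wsub, st_smul, map_sub, st_mon, st_mon, neg_neg]
    have : (starRingEnd ℂ) (-Complex.I / 2) = -(-Complex.I / 2) := by
      simp [Complex.conj_ofNat]
      ring
    rw [this, neg_smul, ← smul_neg, neg_sub]⟩

theorem cosm_coe (m : ℤ × ℤ) : ((cosm m : WW) : Al) = (1 / 2 : ℂ) • (mon m + mon (-m)) := rfl

theorem sinm_coe (m : ℤ × ℤ) : ((sinm m : WW) : Al) = (-Complex.I / 2 : ℂ) • (mon m - mon (-m)) := rfl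

theorem f1_cosm (m : ℤ × ℤ) (x y : ℝ) : f1 (cosm m) x y = Real.cos (m.1 * x + m.2 * y) := by
  rw [f1, fn_def, cosm_coe, map_smul, map_add, ev_mon PB.one, ev_mon PB.one, one_mul, one_mul,
    ← conj_ee, ee]
  rw [Complex.add_conj, smul_eq_mul, Complex.exp_ofReal_mul_I_re]
  have : (1 / 2 : ℂ) * ((2 * Real.cos (m.1 * x + m.2 * y) : ℝ) : ℂ) =
      ((Real.cos (m.1 * x + m.2 * y) : ℝ) : ℂ) := by
    push_cast
    ring
  rw [this, Complex.ofReal_re]

theorem f1_sinm (m : ℤ × ℤ) (x y : ℝ) : f1 (sinm m) x y = Real.sin (m.1 * x + m.2 * y) := by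
  rw [f1, fn_def, sinm_coe, map_smul, map_sub, ev_mon PB.one, ev_mon PB.one, one_mul, one_mul,
    ← conj_ee, ee]
  rw [Complex.sub_conj, smul_eq_mul, Complex.exp_ofReal_mul_I_im]
  have : -Complex.I / 2 * ((2 * Real.sin (m.1 * x + m.2 * y) : ℝ) * Complex.I) =
      ((Real.sin (m.1 * x + m.2 * y) : ℝ) : ℂ) := by
    push_cast
    linear_combination (-(Complex.sin (m.1 * x + m.2 * y))) * Complex.I_mul_I
  rw [this, Complex.ofReal_re]

theorem norm_cosm (m : ℤ × ℤ) : ‖cosm m‖ ≤ om m := by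
  show ‖(1 / 2 : ℂ) • (mon m + mon (-m))‖ ≤ om m
  rw [norm_smul]
  have h := norm_add_le (mon m) (mon (-m))
  rw [norm_mon, norm_mon, om_neg] at h
  have h2 : ‖(1 / 2 : ℂ)‖ = 1 / 2 := by simp
  rw [h2]
  linarith

theorem mu_cosm {σ : ℤ × ℤ → ℂ} (h : Ok σ) (m : ℤ × ℤ) (c : ℝ) (h1 : σ m = c) (h2 : σ (-m) = c) :
    mu σ (cosm m) = c • cosm m := by
  refine Subtype.ext ?_
  rw [mu_coe h, cosm_coe, map_smul, map_add, mult_mon h, mult_mon h, h1, h2, ← smul_add,
    smul_comm]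
  show _ = c • ((cosm m : WW) : Al)
  rw [cosm_coe, Complex.coe_smul]

theorem mu_sinm {σ : ℤ × ℤ → ℂ} (h : Ok σ) (m : ℤ × ℤ) (c : ℝ) (h1 : σ m = c) (h2 : σ (-m) = c) :
    mu σ (sinm m) = c • sinm m := by
  refine Subtype.ext ?_
  rw [mu_coe h, sinm_coe, map_smul, map_sub, mult_mon h, mult_mon h, h1, h2, ← smul_sub,
    smul_comm]
  show _ = c • ((sinm m : WW) : Al)
  rw [sinm_coe, Complex.coe_smul]

/-- exponential -/
noncomputable def ex (v : WW) : WW := NormedSpace.exp v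

theorem ex_hasSum (v : WW) : HasSum (fun n : ℕ => ((n.factorial : ℝ)⁻¹) • v ^ n) (ex v) :=
  NormedSpace.exp_series_hasSum_exp' (𝕂 := ℝ) v

theorem realexp_hasSum (r : ℝ) : HasSum (fun n : ℕ => ((n.factorial : ℝ)⁻¹) * r ^ n) (Real.exp r) := by
  have := NormedSpace.exp_series_hasSum_exp' (𝕂 := ℝ) r
  rw [← Real.exp_eq_exp_ℝ] at this
  simpa using this

theorem f1_ex (v : WW) (x y : ℝ) : f1 (ex v) x y = Real.exp (f1 v x y) := by
  have h1 := (ex_hasSum v).mapL (er (fun _ => 1) x y)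
  refine h1.unique ((realexp_hasSum (f1 v x y)).congr_fun fun n => ?_)
  rw [map_smul, smul_eq_mul]
  congr 1
  exact (map_pow (evR x y) v n)

theorem norm_ex_sub (v : WW) : ‖ex v - 1‖ ≤ Real.exp ‖v‖ - 1 := by
  have h1 := ex_hasSum v
  have h2 := realexp_hasSum ‖v‖
  rw [← hasSum_nat_add_iff' 1] at h1 h2
  simp only [Finset.range_one, Finset.sum_singleton, Nat.factorial_zero, Nat.cast_one, inv_one,
    pow_zero, one_smul, mul_one] at h1 h2
  rw [← h1.tsum_eq]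
  refine tsum_of_norm_bounded h2 fun n => ?_
  rw [norm_smul, norm_inv, Real.norm_natCast]
  gcongr
  exact norm_pow_le' v (Nat.succ_pos n)

/-- independent of the second variable -/
def YI (v : WW) : Prop := mu i0 v = v

theorem YI.mul {u v : WW} (hu : YI u) (hv : YI v) : YI (u * v) := by
  rw [YI, mu_yi Ok.i0 (fun k j l => rfl) u v hu, show mu i0 v = v from hv]

theorem YI.add {u v : WW} (hu : YI u) (hv : YI v) : YI (u + v) := by
  rw [YI, map_add, show mu i0 v = v from hv, show mu i0 u = u from hu]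

theorem YI.smul {u : WW} (c : ℝ) (hu : YI u) : YI (c • u) := by
  rw [YI, map_smul, show mu i0 u = u from hu]

theorem mon_zero_eq : cosm 0 = 1 := by
  refine Subtype.ext ?_
  show (1 / 2 : ℂ) • (mon 0 + mon (-0)) = (1 : Al)
  rw [neg_zero, ← two_smul ℂ (mon 0), smul_smul, one_def]
  norm_num

theorem YI.one : YI 1 := by
  have := mu_cosm Ok.i0 0 1 (by simp [i0]) (by simp [i0])
  rw [one_smul, mon_zero_eq] at this
  exact this

theorem YI.pow {u : WW} (hu : YI u) (n : ℕ) : YI (u ^ n) := by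
  induction n with
  | zero => rw [pow_zero]; exact YI.one
  | succ n ih => rw [pow_succ]; exact ih.mul hu

theorem YI.ex {v : WW} (hv : YI v) : YI (ex v) := by
  have h1 := (ex_hasSum v).mapL (mu i0)
  refine h1.unique ((ex_hasSum v).congr_fun fun n => ?_)
  rw [map_smul, show mu i0 (v ^ n) = v ^ n from hv.pow n]

theorem YI.cosm {m : ℤ × ℤ} (h : m.2 = 0) : YI (cosm m) := by
  have := mu_cosm Ok.i0 m 1 (by simp [i0, h]) (by simp [i0, h])
  rwa [one_smul] at this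

theorem YI.sinm {m : ℤ × ℤ} (h : m.2 = 0) : YI (sinm m) := by
  have := mu_sinm Ok.i0 m 1 (by simp [i0, h]) (by simp [i0, h])
  rwa [one_smul] at this

/-- `ρ` -/
noncomputable def rhoE (b : ℝ) : WW := ex (b • cosm (1, 0))

/-- `1 / ρ` -/
noncomputable def rhoI (b : ℝ) : WW := ex ((-b) • cosm (1, 0))

/-- `w` -/
noncomputable def wE (b : ℝ) : WW := (-(b / 2)) • sinm (1, 0)

/-- `w'` -/
noncomputable def wpE (b : ℝ) : WW := (-(b / 2)) • cosm (1, 0)

/-- `A` -/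
noncomputable def AE (p t : ℝ) : WW :=
  -sinm (0, 1) - p • cosm (1, 1) - (p * t) • sinm (-1, 1)

/-- `S` -/
noncomputable def SE (p t : ℝ) : WW :=
  cosm (0, 1) - p • sinm (1, 1) + (p * t) • cosm (-1, 1)

/-- `A_x` -/
noncomputable def AxE (p t : ℝ) : WW := p • sinm (1, 1) + (p * t) • cosm (-1, 1)

theorem YI.rhoE (b : ℝ) : YI (rhoE b) := YI.ex ((YI.cosm rfl).smul _)

theorem YI.rhoI (b : ℝ) : YI (rhoI b) := YI.ex ((YI.cosm rfl).smul _)

theorem YI.wE (b : ℝ) : YI (wE b) := (YI.sinm rfl).smul _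

theorem YI.wpE (b : ℝ) : YI (wpE b) := (YI.cosm rfl).smul _

theorem f1_rhoE (b x y : ℝ) : f1 (rhoE b) x y = rho b x := by
  rw [rhoE, f1_ex, f1, fn_smul]
  have := f1_cosm (1, 0) x y
  rw [f1] at this
  rw [this, rho]
  simp

theorem f1_rhoI (b x y : ℝ) : f1 (rhoI b) x y = (rho b x)⁻¹ := by
  rw [rhoI, f1_ex, f1, fn_smul]
  have := f1_cosm (1, 0) x y
  rw [f1] at this
  rw [this, rho, ← Real.exp_neg]
  simp

theorem f1_wE (b x y : ℝ) : f1 (wE b) x y = ww b x := by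
  have := f1_sinm (1, 0) x y
  rw [f1] at this
  rw [wE, f1, fn_smul, this, ww]
  simp

theorem f1_wpE (b x y : ℝ) : f1 (wpE b) x y = ww' b x := by
  have := f1_cosm (1, 0) x y
  rw [f1] at this
  rw [wpE, f1, fn_smul, this, ww']
  simp

theorem f1_AE (p t x y : ℝ) : f1 (AE p t) x y = AA p t x y := by
  have h1 := f1_sinm (0, 1) x y
  have h2 := f1_cosm (1, 1) x y
  have h3 := f1_sinm (-1, 1) x y
  rw [f1] at h1 h2 h3
  rw [AE, f1, fn_sub, fn_sub, fn_neg, fn_smul, fn_smul, h1, h2, h3, AA]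
  simp only [Int.cast_zero, zero_mul, Int.cast_one, one_mul, zero_add, Int.cast_neg, neg_mul]
  rw [add_comm x y, neg_add_eq_sub]

theorem f1_SE (p t x y : ℝ) : f1 (SE p t) x y = SS p t x y := by
  have h1 := f1_cosm (0, 1) x y
  have h2 := f1_sinm (1, 1) x y
  have h3 := f1_cosm (-1, 1) x y
  rw [f1] at h1 h2 h3
  rw [SE, f1, fn_add, fn_sub, fn_smul, fn_smul, h1, h2, h3, SS]
  simp only [Int.cast_zero, zero_mul, Int.cast_one, one_mul, zero_add, Int.cast_neg, neg_mul]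
  rw [add_comm x y, neg_add_eq_sub]

theorem f1_AxE (p t x y : ℝ) :
    f1 (AxE p t) x y = p * Real.sin (y + x) + p * t * Real.cos (y - x) := by
  have h2 := f1_sinm (1, 1) x y
  have h3 := f1_cosm (-1, 1) x y
  rw [f1] at h2 h3
  rw [AxE, f1, fn_add, fn_smul, fn_smul, h2, h3]
  simp only [Int.cast_one, one_mul, Int.cast_neg, neg_mul]
  rw [add_comm x y, neg_add_eq_sub]

theorem norm_rhoE_sub {b : ℝ} (hb : 0 < b) (hb' : b ≤ 1 / 10) : ‖rhoE b - 1‖ < 1 / 2 := by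
  refine (norm_ex_sub _).trans_lt ?_
  have h1 : ‖b • cosm (1, 0)‖ ≤ 3 / 10 := by
    rw [norm_smul, Real.norm_eq_abs, abs_of_pos hb]
    have h2 := norm_cosm (1, 0)
    have h3 : om (1, 0) < 3 := by
      have := Real.exp_one_lt_d9
      simp only [om]
      norm_num
      linarith
    calc b * ‖cosm (1, 0)‖ ≤ (1 / 10) * 3 := by
          refine mul_le_mul hb' (h2.trans h3.le) (norm_nonneg _) (by norm_num)
      _ = 3 / 10 := by norm_num
  have h2 : Real.exp ‖b • cosm (1, 0)‖ ≤ Real.exp (3 / 10) := Real.exp_le_exp.mpr h1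
  have h3 : Real.exp (3 / 10) < 3 / 2 := by
    have h4 := Real.add_one_le_exp (-(3 / 10) : ℝ)
    have h5 : Real.exp (3 / 10) * Real.exp (-(3 / 10)) = 1 := by
      rw [← Real.exp_add]
      simp
    nlinarith [Real.exp_pos (3 / 10 : ℝ)]
  linarith

end Run7.h99.WB
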