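import Mathlib
import Pool.Agent.Run7.h99.WB.El

/-!
The operators of the problem.
-/

open Set Filter Topology

namespace Run7.h99.WB

open Run7.h117 (Per CD dx dy mY rho vv ww ww' AA SS m1 N1)

theorem PB.add {σ τ : ℤ × ℤ → ℂ} (h : PB σ) (h' : PB τ) : PB (fun m => σ m + τ m) := by
  obtain ⟨C, N, hC, h⟩ := h
  obtain ⟨C', N', hC', h'⟩ := h'
  refine ⟨C + C', N + N', by positivity, fun m => (norm_add_le _ _).trans ?_⟩
  have h1 := sz_ge m
  have h2 : sz m ^ N ≤ sz m ^ (N + N') := pow_le_pow_right₀ h1 (by omega)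
  have h3 : sz m ^ N' ≤ sz m ^ (N + N') := pow_le_pow_right₀ h1 (by omega)
  calc ‖σ m‖ + ‖τ m‖ ≤ C * sz m ^ N + C' * sz m ^ N' := add_le_add (h m) (h' m)
    _ ≤ C * sz m ^ (N + N') + C' * sz m ^ (N + N') := by gcongr
    _ = _ := by ring

theorem PB.smul {σ : ℤ × ℤ → ℂ} (c : ℂ) (h : PB σ) : PB (fun m => c * σ m) :=
  (PB.of_bdd (σ := fun _ => c) ‖c‖ (fun _ => le_refl _)).mul h

theorem ev_symb_add {σ τ : ℤ × ℤ → ℂ} (h : PB σ) (h' : PB τ) (z : ℝ × ℝ) :
    ev (fun m => σ m + τ m) z = ev σ z + ev τ z :=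
  ext_mon fun m => by rw [add_apply, ev_mon h, ev_mon h', ev_mon (h.add h'), add_mul]

theorem ev_symb_smul {σ : ℤ × ℤ → ℂ} (c : ℂ) (h : PB σ) (z : ℝ × ℝ) :
    ev (fun m => c * σ m) z = c • ev σ z :=
  ext_mon fun m => by rw [smul_apply, ev_mon h, ev_mon (h.smul c), smul_eq_mul, mul_assoc]

theorem fn_symb_add {σ τ : ℤ × ℤ → ℂ} (h : PB σ) (h' : PB τ) (u : WW) (x y : ℝ) :
    fn (fun m => σ m + τ m) u x y = fn σ u x y + fn τ u x y := by
  rw [fn_def, ev_symb_add h h', add_apply, Complex.add_re, fn_def, fn_def]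

theorem fn_symb_smul {σ : ℤ × ℤ → ℂ} (c : ℝ) (h : PB σ) (u : WW) (x y : ℝ) :
    fn (fun m => (c : ℂ) * σ m) u x y = c * fn σ u x y := by
  rw [fn_def, ev_symb_smul (c : ℂ) h, smul_apply, smul_eq_mul, Complex.re_ofReal_mul, fn_def]

section ops

variable (p n : ℝ)

/-- first component of the frequency vector -/
noncomputable def x1 (m : ℤ × ℤ) : ℝ := m.1 + m.2 * p

/-- second component of the frequency vector -/
noncomputable def x2 (m : ℤ × ℤ) : ℝ := n * m.2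

/-- length of the frequency vector -/
noncomputable def nx (m : ℤ × ℤ) : ℝ := Real.sqrt (x1 p m ^ 2 + x2 n m ^ 2)

/-- inverse of the length -/
noncomputable def kr (m : ℤ × ℤ) : ℝ := if m.2 = 0 then 0 else (nx p n m)⁻¹

/-- symbol of `κ` -/
noncomputable def sK (m : ℤ × ℤ) : ℂ := (kr p n m : ℝ)

/-- symbol of `D κ` -/
noncomputable def sD (m : ℤ × ℤ) : ℂ := Complex.I * (kr p n m * x1 p m : ℝ)

/-- symbol of `n κ_y` -/
noncomputable def sN (m : ℤ × ℤ) : ℂ := Complex.I * (kr p n m * x2 n m : ℝ)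

/-- symbol of the primitive -/
noncomputable def sJ (m : ℤ × ℤ) : ℂ :=
  if m.2 = 0 then (if m.1 = 0 then 0 else Complex.I * (-(m.1 : ℝ)⁻¹ : ℝ)) else 0

variable {p n}

theorem kr_nonneg (m : ℤ × ℤ) : 0 ≤ kr p n m := by
  rw [kr]
  split
  · exact le_refl _
  · exact inv_nonneg.mpr (Real.sqrt_nonneg _)

theorem kr_neg (m : ℤ × ℤ) : kr p n (-m) = kr p n m := by
  have h1 : x1 p (-m) = -x1 p m := by simp [x1]; ring
  have h2 : x2 n (-m) = -x2 n m := by simp [x2]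
  rw [kr, kr, nx, nx, h1, h2]
  simp

theorem nx_pos (hn : 0 < n) {m : ℤ × ℤ} (hm : m.2 ≠ 0) : 0 < nx p n m := by
  rw [nx]
  apply Real.sqrt_pos.mpr
  have : x2 n m ≠ 0 := by
    rw [x2]
    exact mul_ne_zero hn.ne' (by exact_mod_cast hm)
  positivity

theorem nx_sq (m : ℤ × ℤ) : nx p n m ^ 2 = x1 p m ^ 2 + x2 n m ^ 2 := by
  rw [nx, Real.sq_sqrt (by positivity)]

theorem kr_mul_nx (hn : 0 < n) {m : ℤ × ℤ} (hm : m.2 ≠ 0) : kr p n m * nx p n m = 1 := by
  rw [kr, if_neg hm, inv_mul_cancel₀ (nx_pos hn hm).ne']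

theorem abs_kr_x1 (m : ℤ × ℤ) : |kr p n m * x1 p m| ≤ 1 := by
  rw [abs_mul, abs_of_nonneg (kr_nonneg m), kr]
  split
  · simp
  · have h : |x1 p m| ≤ nx p n m := by
      rw [nx]
      apply Real.abs_le_sqrt
      nlinarith [sq_nonneg (x2 n m)]
    rcases (Real.sqrt_nonneg (x1 p m ^ 2 + x2 n m ^ 2)).eq_or_lt with h0 | h0
    · rw [nx, ← h0]
      simp
    · rw [inv_mul_le_iff₀ (by rw [nx]; exact h0), mul_one]
      exact h

theorem abs_kr_x2 (m : ℤ × ℤ) : |kr p n m * x2 n m| ≤ 1 := by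
  rw [abs_mul, abs_of_nonneg (kr_nonneg m), kr]
  split
  · simp
  · have h : |x2 n m| ≤ nx p n m := by
      rw [nx]
      apply Real.abs_le_sqrt
      nlinarith [sq_nonneg (x1 p m)]
    rcases (Real.sqrt_nonneg (x1 p m ^ 2 + x2 n m ^ 2)).eq_or_lt with h0 | h0
    · rw [nx, ← h0]
      simp
    · rw [inv_mul_le_iff₀ (by rw [nx]; exact h0), mul_one]
      exact h

theorem kr_le (hn : 0 < n) (m : ℤ × ℤ) : kr p n m ≤ n⁻¹ := by
  rw [kr]
  split
  · positivity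
  · next hm =>
    apply inv_anti₀ hn
    rw [nx]
    apply Real.le_sqrt_of_sq_le
    have h1 : (1 : ℝ) ≤ (m.2 : ℝ) ^ 2 := by
      have : (1 : ℤ) ≤ m.2 ^ 2 := by
        have := sq_pos_of_ne_zero hm
        omega
      exact_mod_cast this
    rw [x2, mul_pow]
    nlinarith [sq_nonneg (x1 p m), sq_nonneg n]

theorem norm_I_mul (r : ℝ) : ‖Complex.I * (r : ℂ)‖ = |r| := by
  rw [norm_mul, Complex.norm_I, one_mul, Complex.norm_real, Real.norm_eq_abs]

theorem Ok.sK (hn : 0 < n) : Ok (sK p n) := by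
  refine ⟨⟨n⁻¹, fun m => ?_⟩, fun m => ?_⟩
  · rw [WB.sK, Complex.norm_real, Real.norm_eq_abs, abs_of_nonneg (kr_nonneg m)]
    exact kr_le hn m
  · rw [WB.sK, WB.sK, kr_neg, Complex.conj_ofReal]

theorem conj_I_mul (r : ℝ) : (starRingEnd ℂ) (Complex.I * (r : ℂ)) = Complex.I * ((-r : ℝ) : ℂ) := by
  rw [map_mul, Complex.conj_I, Complex.conj_ofReal]
  push_cast
  ring

theorem Ok.sD : Ok (sD p n) := by
  refine ⟨⟨1, fun m => ?_⟩, fun m => ?_⟩
  · rw [WB.sD, norm_I_mul]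
    exact abs_kr_x1 m
  · have h1 : x1 p (-m) = -x1 p m := by simp [x1]; ring
    rw [WB.sD, WB.sD, conj_I_mul, kr_neg, h1, mul_neg]

theorem Ok.sN : Ok (sN p n) := by
  refine ⟨⟨1, fun m => ?_⟩, fun m => ?_⟩
  · rw [WB.sN, norm_I_mul]
    exact abs_kr_x2 m
  · have h1 : x2 n (-m) = -x2 n m := by simp [x2]
    rw [WB.sN, WB.sN, conj_I_mul, kr_neg, h1, mul_neg]

theorem Ok.sJ : Ok sJ := by
  refine ⟨⟨1, fun m => ?_⟩, fun m => ?_⟩
  · rw [WB.sJ]
    split
    · split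
      · simp
      · next h =>
        rw [norm_I_mul, abs_neg, abs_inv]
        apply inv_le_one_of_one_le₀
        have : (1 : ℤ) ≤ |m.1| := Int.one_le_abs h
        exact_mod_cast this
    · simp
  · rw [WB.sJ, WB.sJ]
    simp only [Prod.snd_neg, neg_eq_zero, Prod.fst_neg]
    split
    · split
      · simp
      · rw [conj_I_mul]
        congr 2
        push_cast
        rw [inv_neg]
    · simp

end ops

/-! ### the unknowns -/

section defs

variable (b p n : ℝ)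

/-- `m₁` -/
noncomputable def m1E (t : ℝ) : WW := rhoI b * AE p t

/-- `N₁` -/
noncomputable def N1E (t : ℝ) : WW := rhoI b * SE p t

/-- `m₁ₓ` -/
noncomputable def m1xE (t : ℝ) : WW := rhoI b * (AxE p t - (2 : ℝ) • (wE b * AE p t))

/-- `κ` -/
noncomputable def kapE (U : WW) : WW := mu (sK p n) U

/-- `D κ` -/
noncomputable def DkE (U : WW) : WW := mu (sD p n) U

/-- `n κ_y` -/
noncomputable def NkE (U : WW) : WW := mu (sN p n) U

/-- `κ_y` -/
noncomputable def kyE (U : WW) : WW := n⁻¹ • mu (sN p n) U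

/-- `κ_x` -/
noncomputable def kxE (U : WW) : WW := mu (sD p n) U - (p * n⁻¹) • mu (sN p n) U

/-- `ϑ` -/
noncomputable def vtE (t : ℝ) (U : WW) : WW := mu i0 (m1E b p t * kapE p n U)

/-- `ϑ_x` -/
noncomputable def vtxE (t : ℝ) (U : WW) : WW :=
  mu i0 (m1xE b p t * kapE p n U + m1E b p t * kxE p n U)

/-- `Λ` -/
noncomputable def LamE (t : ℝ) (U : WW) : WW := mu sJ ((2 : ℝ) • (wE b * vtE b p n t U))

/-- `λ` -/
noncomputable def lamE (ε t : ℝ) (U : WW) : WW := 1 + ε ^ 2 • LamE b p n t U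

/-- `k` -/
noncomputable def kE (ε t : ℝ) (U : WW) : WW := lamE b p n ε t U + ε • kapE p n U

/-- `Q` -/
noncomputable def QE (ε t : ℝ) (U : WW) : WW :=
  (2 * ε) • (wE b * vtE b p n t U) + DkE p n U + ε • (wE b * (N1E b p t * kyE p n U))

/-- `X₁` -/
noncomputable def X1E (ε t : ℝ) (U : WW) : WW := rhoE b * QE b p n ε t U

/-- `X₂` -/
noncomputable def X2E (ε t : ℝ) (U : WW) : WW :=
  ε • (wE b * (N1E b p t * X1E b p n ε t U)) + n • (rhoE b * NkE p n U)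

/-- `X₃` -/
noncomputable def X3E (ε t : ℝ) (U M : WW) : WW :=
  rhoE b * (wpE b * (m1E b p t * kE b p n ε t U)) +
    ε • (rhoE b * (wE b * (M * (((2 : ℝ) • (wE b * vtE b p n t U) + vtxE b p n t U) *
      ((1 + ε • m1E b p t) * kE b p n ε t U)))))

/-- `M` -/
noncomputable def ME (ε t : ℝ) (U : WW) : WW :=
  Ring.inverse (1 + ε ^ 2 • (LamE b p n t U + vtE b p n t U))

/-- the equation with a free `M` -/
noncomputable def GE (ε t : ℝ) (U M : WW) : WW :=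
  mu (sD p n) (X1E b p n ε t U) + n⁻¹ • mu (sN p n) (X2E b p n ε t U) -
    mu (sK p n) (X3E b p n ε t U M) - mu i0 U

/-- the equation -/
noncomputable def FE (ε t : ℝ) (U : WW) : WW := GE b p n ε t U (ME b p n ε t U)

end defs

end Run7.h99.WB
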