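import Mathlib
import Pool.Agent.Run7.h99.WB.Op

/-!
From the equation in the algebra to the equation for functions.
-/

open Set Filter Topology

namespace Run7.h99.WB

open Run7.h117 (Per CD dx dy mY rho vv ww ww' AA SS m1 N1)

variable {p n : ℝ}

theorem PB.nx (p n : ℝ) : PB (fun m => ((nx p n m : ℝ) : ℂ)) := by
  refine ⟨1 + |p| + |n|, 1, by positivity, fun m => ?_⟩
  rw [Complex.norm_real, Real.norm_eq_abs, pow_one, WB.nx, abs_of_nonneg (Real.sqrt_nonneg _)]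
  apply Real.sqrt_le_iff.mpr
  have h0 := sz_ge m
  refine ⟨by positivity, ?_⟩
  have h1 : |x1 p m| ≤ (1 + |p|) * sz m := by
    have e1 : |x1 p m| ≤ |(m.1 : ℝ)| + |(m.2 : ℝ)| * |p| := by
      rw [x1, ← abs_mul]
      exact abs_add_le _ _
    have e2 : |(m.1 : ℝ)| ≤ sz m := by
      rw [sz]
      linarith [abs_nonneg (m.2 : ℝ)]
    have e3 : |(m.2 : ℝ)| ≤ sz m := by
      rw [sz]
      linarith [abs_nonneg (m.1 : ℝ)]
    nlinarith [abs_nonneg p]
  have h2 : |x2 n m| ≤ |n| * sz m := by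
    rw [x2, abs_mul]
    have e3 : |(m.2 : ℝ)| ≤ sz m := by
      rw [sz]
      linarith [abs_nonneg (m.1 : ℝ)]
    gcongr
  have h3 : x1 p m ^ 2 ≤ ((1 + |p|) * sz m) ^ 2 := by
    rw [← sq_abs]
    exact pow_le_pow_left₀ (abs_nonneg _) h1 2
  have h4 : x2 n m ^ 2 ≤ (|n| * sz m) ^ 2 := by
    rw [← sq_abs]
    exact pow_le_pow_left₀ (abs_nonneg _) h2 2
  have h5 : 0 ≤ (1 + |p|) * |n| * sz m ^ 2 := by positivity
  nlinarith

theorem nx_kr (hn : 0 < n) (m : ℤ × ℤ) :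
    ((nx p n m : ℝ) : ℂ) * ((kr p n m : ℝ) : ℂ) = if m.2 = 0 then 0 else 1 := by
  split
  · next h => rw [kr, if_pos h]; simp
  · next h =>
    rw [← Complex.ofReal_mul, mul_comm, kr_mul_nx hn h, Complex.ofReal_one]

theorem fn_i0 {σ : ℤ × ℤ → ℂ} (h : PB σ) (u : WW) (x y y' : ℝ) :
    fn (fun m => i0 m * σ m) u x y = fn (fun m => i0 m * σ m) u x y' := by
  rw [← mY_fn h, ← mY_fn h]

theorem struct (hn : 0 < n) (X1 X2 X3 : WW)
    (hF : mu (sD p n) X1 + n⁻¹ • mu (sN p n) X2 - mu (sK p n) X3 = 0)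
    (hM : ∀ x, HasDerivAt (mY (f1 X1)) (mY (f1 X3) x) x) (x y : ℝ) :
    dx (f1 X1) x y + p * dy (f1 X1) x y + dy (f1 X2) x y = f1 X3 x y := by
  rw [f1, f1, f1, dx_fn PB.one, dy_fn PB.one, dy_fn PB.one]
  have hs1 : PB (fun m => s1 m * 1) := PB.s1.mul PB.one
  have hs2 : PB (fun m => s2 m * 1) := PB.s2.mul PB.one
  have hnx := PB.nx p n
  have e1 : (fun m => s1 m * 1 + (p : ℂ) * (s2 m * 1)) =
      fun m => i0 m * (s1 m * 1) + ((nx p n m : ℝ) : ℂ) * sD p n m := by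
    funext m
    have e0 : ((nx p n m : ℝ) : ℂ) * sD p n m =
        (((nx p n m : ℝ) : ℂ) * ((kr p n m : ℝ) : ℂ)) * (Complex.I * (x1 p m : ℝ)) := by
      rw [sD, Complex.ofReal_mul]
      ring
    rw [e0, nx_kr hn, i0, s1, s2, x1]
    split
    · next h => rw [h]; simp
    · push_cast
      ring
  have e2 : (fun m => s2 m * 1) = fun m => ((n⁻¹ : ℝ) : ℂ) * (((nx p n m : ℝ) : ℂ) * sN p n m) := by
    funext m
    have e0 : ((nx p n m : ℝ) : ℂ) * sN p n m =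
        (((nx p n m : ℝ) : ℂ) * ((kr p n m : ℝ) : ℂ)) * (Complex.I * (x2 n m : ℝ)) := by
      rw [sN, Complex.ofReal_mul]
      ring
    rw [e0, nx_kr hn, s2, x2]
    split
    · next h => rw [h]; simp
    · have : ((n : ℝ) : ℂ) ≠ 0 := by exact_mod_cast hn.ne'
      push_cast
      field_simp
  have e3 : (fun _ => 1 : ℤ × ℤ → ℂ) = fun m => i0 m * 1 + ((nx p n m : ℝ) : ℂ) * sK p n m := by
    funext m
    rw [sK, nx_kr hn, i0]
    split <;> simp
  have h1 : fn (fun m => s1 m * 1) X1 x y + p * fn (fun m => s2 m * 1) X1 x y =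
      fn (fun m => i0 m * (s1 m * 1)) X1 x y + fn (fun m => ((nx p n m : ℝ) : ℂ) * sD p n m) X1 x y := by
    rw [← fn_symb_smul p hs2, ← fn_symb_add hs1 (hs2.smul p), e1,
      fn_symb_add (PB.i0.mul hs1) (hnx.mul Ok.sD.pb)]
  have h2 : fn (fun m => s2 m * 1) X2 x y =
      n⁻¹ * fn (fun m => ((nx p n m : ℝ) : ℂ) * sN p n m) X2 x y := by
    rw [e2, fn_symb_smul n⁻¹ (hnx.mul Ok.sN.pb)]
  have h3 : fn (fun _ => 1) X3 x y =
      fn (fun m => i0 m * 1) X3 x y + fn (fun m => ((nx p n m : ℝ) : ℂ) * sK p n m) X3 x y := by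
    conv_lhs => rw [e3]
    rw [fn_symb_add (PB.i0.mul PB.one) (hnx.mul (Ok.sK hn).pb)]
  have h4 : fn (fun m => ((nx p n m : ℝ) : ℂ) * sD p n m) X1 x y +
      n⁻¹ * fn (fun m => ((nx p n m : ℝ) : ℂ) * sN p n m) X2 x y -
      fn (fun m => ((nx p n m : ℝ) : ℂ) * sK p n m) X3 x y = 0 := by
    rw [← fn_mu hnx Ok.sD, ← fn_mu hnx Ok.sN, ← fn_mu hnx (Ok.sK hn), ← fn_smul, ← fn_add, ← fn_sub,
      hF, fn_zero]
  have h5 : fn (fun m => i0 m * (s1 m * 1)) X1 x y = fn (fun m => i0 m * 1) X3 x y := by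
    have a1 := hM x
    have a2 : mY (f1 X1) = fun x => fn (fun m => i0 m * 1) X1 x y := by
      funext x
      exact mY_fn PB.one X1 x y
    rw [a2] at a1
    have a3 := fn_hasDerivAt_x (PB.i0.mul PB.one) X1 x y
    have a4 := a1.unique a3
    rw [mY_fn PB.one X3 x y] at a4
    rw [a4]
    congr 1
    funext m
    ring
  linarith

end Run7.h99.WB
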