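import Mathlib
import Pool.Agent.Run7.h99.WB.Str

/-!
The linear problem at `ε = 0`.
-/

open Set Filter Topology

namespace Run7.h99.WB

open Run7.h117 (Per CD dx dy mY rho vv ww ww' AA SS m1 N1 Lin DD)

theorem mu_comm {σ τ : ℤ × ℤ → ℂ} (h : Ok σ) (h' : Ok τ) (u : WW) :
    mu σ (mu τ u) = mu τ (mu σ u) := by
  rw [mu_mu h h', mu_mu h' h]
  congr 2
  funext m
  ring

theorem mu_eq_zero {σ : ℤ × ℤ → ℂ} (h : ∀ m, σ m = 0) (u : WW) : mu σ u = 0 := by
  have hσ : Ok σ := ⟨⟨0, fun m => by rw [h m]; simp⟩, fun m => by rw [h, h]; simp⟩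
  have := norm_mu_le hσ 0 (fun m => by rw [h m]; simp) u
  rw [zero_mul] at this
  exact norm_le_zero_iff.mp this

theorem mu_symb_add {σ τ υ : ℤ × ℤ → ℂ} (h : Ok σ) (h' : Ok τ) (h'' : Ok υ)
    (he : ∀ m, σ m + τ m = υ m) (u : WW) : mu σ u + mu τ u = mu υ u := by
  refine Subtype.ext ?_
  show ((mu σ u : WW) : Al) + ((mu τ u : WW) : Al) = ((mu υ u : WW) : Al)
  rw [mu_coe h, mu_coe h', mu_coe h'', ← add_apply]
  congr 1
  refine ext_mon fun m => ?_
  rw [add_apply, mult_mon h, mult_mon h', mult_mon h'', ← he, add_smul]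

section

variable {b p n : ℝ}

theorem Ok.one_sub_i0 : Ok (fun m => 1 - WB.i0 m) := by
  refine ⟨⟨1, fun m => ?_⟩, fun m => ?_⟩
  · rw [WB.i0]; split <;> simp
  · simp only [WB.i0, Prod.snd_neg, neg_eq_zero]; split <;> simp

theorem sDN_sq (hn : 0 < n) (m : ℤ × ℤ) :
    sD p n m * sD p n m + sN p n m * sN p n m = -(1 - i0 m) := by
  have e : sD p n m * sD p n m + sN p n m * sN p n m =
      -(((kr p n m) ^ 2 * (x1 p m ^ 2 + x2 n m ^ 2) : ℝ) : ℂ) := by
    rw [sD, sN]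
    push_cast
    linear_combination (((kr p n m : ℝ) : ℂ) ^ 2 * (((x1 p m : ℝ) : ℂ) ^ 2 + ((x2 n m : ℝ) : ℂ) ^ 2)) *
      Complex.I_mul_I
  rw [e, ← nx_sq, i0]
  split
  · next h => rw [kr, if_pos h]; simp
  · next h =>
    rw [← mul_pow, kr_mul_nx hn h]
    simp

theorem mu_sDN (hn : 0 < n) (u : WW) :
    mu (sD p n) (mu (sD p n) u) + mu (sN p n) (mu (sN p n) u) = -u + mu i0 u := by
  rw [mu_mu Ok.sD Ok.sD, mu_mu Ok.sN Ok.sN]
  have h1 := mu_symb_add Ok.i0 Ok.one_sub_i0 Ok.one (fun m => by ring) u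
  rw [mu_one] at h1
  have hz : Ok (fun _ => (0 : ℂ)) := ⟨⟨0, fun m => by simp⟩, fun m => by simp⟩
  have hneg : Ok (fun m => -(1 - i0 m)) :=
    ⟨Ok.one_sub_i0.bd.imp fun C hC m => by rw [norm_neg]; exact hC m, fun m => by
      show -(1 - i0 (-m)) = _
      rw [show (1 - i0 (-m)) = _ from Ok.one_sub_i0.sy m, map_neg]⟩
  have h2 := mu_symb_add hneg Ok.one_sub_i0 hz (fun m => by ring) u
  rw [mu_eq_zero (fun _ => rfl)] at h2
  have h3 := mu_symb_add (Ok.sD.mul Ok.sD) (Ok.sN.mul Ok.sN) hneg (sDN_sq (p := p) hn) u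
  rw [h3]
  have h4 : mu (fun m => -(1 - i0 m)) u = -mu (fun m => 1 - i0 m) u := eq_neg_of_add_eq_zero_left h2
  rw [h4]
  have h5 : mu (fun m => 1 - i0 m) u = u - mu i0 u := by
    rw [eq_sub_iff_add_eq, add_comm]
    exact h1
  rw [h5]
  abel

variable (b p n)

/-- the operator `T` -/
noncomputable def TT : WW →L[ℝ] WW :=
  (mu (sD p n)).comp ((ContinuousLinearMap.mul ℝ WW (rhoE b - 1)).comp (mu (sD p n))) +
    (mu (sN p n)).comp ((ContinuousLinearMap.mul ℝ WW (rhoE b - 1)).comp (mu (sN p n)))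

theorem TT_apply (u : WW) : TT b p n u = mu (sD p n) ((rhoE b - 1) * mu (sD p n) u) +
    mu (sN p n) ((rhoE b - 1) * mu (sN p n) u) := rfl

theorem norm_sD_le (u : WW) : ‖mu (sD p n) u‖ ≤ ‖u‖ := by
  have := norm_mu_le (Ok.sD (p := p) (n := n)) 1
    (fun m => by rw [WB.sD, norm_I_mul]; exact abs_kr_x1 m) u
  rwa [one_mul] at this

theorem norm_sN_le (u : WW) : ‖mu (sN p n) u‖ ≤ ‖u‖ := by
  have := norm_mu_le (Ok.sN (p := p) (n := n)) 1
    (fun m => by rw [WB.sN, norm_I_mul]; exact abs_kr_x2 m) u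
  rwa [one_mul] at this

theorem norm_TT_lt (hb : 0 < b) (hb' : b ≤ 1 / 10) : ‖TT b p n‖ < 1 := by
  have h := norm_rhoE_sub hb hb'
  refine lt_of_le_of_lt (ContinuousLinearMap.opNorm_le_bound _ (M := ‖rhoE b - 1‖ + ‖rhoE b - 1‖)
    (by positivity) fun u => ?_) (by linarith)
  rw [TT_apply]
  refine (norm_add_le _ _).trans ?_
  rw [add_mul]
  refine add_le_add ?_ ?_
  · exact (norm_sD_le _ _ _).trans ((norm_mul_le _ _).trans
      (mul_le_mul_of_nonneg_left (norm_sD_le _ _ _) (norm_nonneg _)))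
  · exact (norm_sN_le _ _ _).trans ((norm_mul_le _ _).trans
      (mul_le_mul_of_nonneg_left (norm_sN_le _ _ _) (norm_nonneg _)))

theorem TT_equiv (hb : 0 < b) (hb' : b ≤ 1 / 10) :
    ∃ e : WW ≃L[ℝ] WW, ∀ u, e u = u - TT b p n u := by
  let a : (WW →L[ℝ] WW)ˣ := Units.oneSub (TT b p n) (norm_TT_lt b p n hb hb')
  refine ⟨ContinuousLinearEquiv.unitsEquiv ℝ WW a, fun u => ?_⟩
  rw [ContinuousLinearEquiv.unitsEquiv_apply]
  rfl

/-- the right hand side -/
noncomputable def sE (t : ℝ) : WW := mu (sK p n) (rhoE b * (wpE b * m1E b p t))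

theorem FE_zero (hn : 0 < n) (t : ℝ) (U : WW) :
    FE b p n 0 t U = -U + TT b p n U - sE b p n t := by
  have h1 : X1E b p n 0 t U = rhoE b * mu (sD p n) U := by
    rw [X1E, QE, DkE]
    simp
  have h2 : X2E b p n 0 t U = n • (rhoE b * mu (sN p n) U) := by
    rw [X2E, NkE]
    simp
  have h3 : ∀ M, X3E b p n 0 t U M = rhoE b * (wpE b * m1E b p t) := by
    intro M
    rw [X3E, kE, lamE]
    simp
  rw [FE, GE, h1, h2, h3, map_smul, smul_smul, inv_mul_cancel₀ hn.ne', one_smul, TT_apply, sE]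
  have h4 := mu_sDN (p := p) hn U
  have h5 : mu (sD p n) ((rhoE b - 1) * mu (sD p n) U) =
      mu (sD p n) (rhoE b * mu (sD p n) U) - mu (sD p n) (mu (sD p n) U) := by
    rw [← map_sub]
    congr 1
    ring
  have h6 : mu (sN p n) ((rhoE b - 1) * mu (sN p n) U) =
      mu (sN p n) (rhoE b * mu (sN p n) U) - mu (sN p n) (mu (sN p n) U) := by
    rw [← map_sub]
    congr 1
    ring
  rw [h5, h6]
  have h7 : mu i0 U = mu (sD p n) (mu (sD p n) U) + mu (sN p n) (mu (sN p n) U) + U := by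
    rw [h4]
    abel
  rw [h7]
  abel

/-- the coefficient of `t` in `A` -/
noncomputable def A1 : WW := -(p • sinm (-1, 1))

theorem AE_affine (t : ℝ) : AE p t = AE p 0 + t • A1 p := by
  rw [AE, AE, A1, mul_zero, zero_smul, sub_zero, smul_neg, smul_smul, mul_comm p t, ← sub_eq_add_neg]

/-- the linear part of `sE` -/
noncomputable def sE1 : WW := mu (sK p n) (rhoE b * (wpE b * (rhoI b * A1 p)))

theorem sE_affine (t : ℝ) : sE b p n t = sE b p n 0 + t • sE1 b p n := by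
  rw [sE, sE, sE1, m1E, m1E, AE_affine, ← map_smul, ← map_add]
  congr 1
  simp only [mul_add, mul_smul_comm]

/-- indicator of `|j| = 1` -/
noncomputable def h1s (m : ℤ × ℤ) : ℂ := if |m.2| = 1 then 1 else 0

theorem Ok.h1s : Ok h1s := by
  refine ⟨⟨1, fun m => ?_⟩, fun m => ?_⟩
  · rw [WB.h1s]; split <;> simp
  · simp only [WB.h1s, Prod.snd_neg, abs_neg]; split <;> simp

theorem h1_yi (v u : WW) (hv : YI v) : mu h1s (v * u) = v * mu h1s u :=
  mu_yi Ok.h1s (fun _ _ _ => rfl) v u hv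

theorem h1_TT (u : WW) : mu h1s (TT b p n u) = TT b p n (mu h1s u) := by
  have hr : YI (rhoE b - 1) := by
    have := (YI.rhoE b).add (YI.one.smul (-1))
    rwa [neg_smul, one_smul, ← sub_eq_add_neg] at this
  rw [TT_apply, TT_apply, map_add]
  congr 1
  · rw [mu_comm Ok.h1s Ok.sD, h1_yi _ _ hr, mu_comm Ok.h1s Ok.sD]
  · rw [mu_comm Ok.h1s Ok.sN, h1_yi _ _ hr, mu_comm Ok.h1s Ok.sN]

theorem h1_AE (t : ℝ) : mu h1s (AE p t) = AE p t := by
  have e1 := mu_sinm Ok.h1s (0, 1) 1 (by simp [h1s]) (by simp [h1s])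
  have e2 := mu_cosm Ok.h1s (1, 1) 1 (by simp [h1s]) (by simp [h1s])
  have e3 := mu_sinm Ok.h1s (-1, 1) 1 (by simp [h1s]) (by simp [h1s])
  rw [one_smul] at e1 e2 e3
  rw [AE, map_sub, map_sub, map_neg, map_smul, map_smul, e1, e2, e3]

theorem i0_AE (t : ℝ) : mu i0 (AE p t) = 0 := by
  have e1 := mu_sinm Ok.i0 (0, 1) 0 (by simp [i0]) (by simp [i0])
  have e2 := mu_cosm Ok.i0 (1, 1) 0 (by simp [i0]) (by simp [i0])
  have e3 := mu_sinm Ok.i0 (-1, 1) 0 (by simp [i0]) (by simp [i0])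
  rw [zero_smul] at e1 e2 e3
  rw [AE, map_sub, map_sub, map_neg, map_smul, map_smul, e1, e2, e3]
  simp

theorem h1_sE (hn : 0 < n) (t : ℝ) : mu h1s (sE b p n t) = sE b p n t := by
  rw [sE, mu_comm Ok.h1s (Ok.sK hn), h1_yi _ _ (YI.rhoE b), h1_yi _ _ (YI.wpE b), m1E,
    h1_yi _ _ (YI.rhoI b), h1_AE]

end

theorem harm_aux {κ : WW} (h : mu h1s κ = κ) (x y : ℝ) :
    f1 κ x (y + Real.pi / 2) = dy (f1 κ) x y := by
  rw [f1, dy_fn PB.one, ← h, fn_mu PB.one Ok.h1s, fn_mu (PB.s2.mul PB.one) Ok.h1s, fn_def, fn_def]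
  congr 2
  refine ext_mon fun m => ?_
  rw [ev_mon (PB.one.mul Ok.h1s.pb), ev_mon ((PB.s2.mul PB.one).mul Ok.h1s.pb), h1s]
  split
  · next hm =>
    have e1 : ee m (x, y + Real.pi / 2) = Complex.exp (m.2 * (Real.pi / 2 * Complex.I)) * ee m (x, y) := by
      rw [ee, ee, ← Complex.exp_add]
      congr 1
      push_cast
      ring
    have e2 : Complex.exp (m.2 * (Real.pi / 2 * Complex.I)) = s2 m := by
      rcases (abs_eq (by norm_num : (0 : ℤ) ≤ 1)).mp hm with h' | h'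
      · rw [s2, h']
        have : ((1 : ℤ) : ℂ) * (Real.pi / 2 * Complex.I) = Real.pi / 2 * Complex.I := by
          push_cast
          ring
        rw [this, Complex.exp_mul_I]
        simp
      · rw [s2, h']
        have : ((-1 : ℤ) : ℂ) * (Real.pi / 2 * Complex.I) = (-(Real.pi / 2)) * Complex.I := by
          push_cast
          ring
        rw [this, Complex.exp_mul_I]
        simp
    rw [e1, e2]
    ring
  · simp

end Run7.h99.WB
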