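import Mathlib
import Pool.Agent.Run7.h99.WB.Lin

/-!
Derivatives and means of the elements.
-/

open Set Filter Topology

namespace Run7.h99.WB

open Run7.h117 (Per CD dx dy mY rho vv ww ww' AA SS m1 N1 Lin DD)

theorem f1_add (u v : WW) (x y : ℝ) : f1 (u + v) x y = f1 u x y + f1 v x y := fn_add _ u v x y

theorem f1_sub (u v : WW) (x y : ℝ) : f1 (u - v) x y = f1 u x y - f1 v x y := fn_sub _ u v x y

theorem f1_neg (u : WW) (x y : ℝ) : f1 (-u) x y = -f1 u x y := fn_neg _ u x y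

theorem f1_smul (c : ℝ) (u : WW) (x y : ℝ) : f1 (c • u) x y = c * f1 u x y := fn_smul _ c u x y

theorem f1_zero (x y : ℝ) : f1 0 x y = 0 := fn_zero _ x y

theorem mY_f1 (u : WW) (x y : ℝ) : mY (f1 u) x = f1 (mu i0 u) x y := by
  rw [f1, f1, mY_fn PB.one u x y, fn_mu PB.one Ok.i0]
  congr 1
  funext m
  ring

theorem YI.f1_eq {v : WW} (h : YI v) (x y y' : ℝ) : f1 v x y = f1 v x y' := by
  have h1 := mY_f1 v x y
  have h2 := mY_f1 v x y'
  rw [show mu i0 v = v from h] at h1 h2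
  rw [← h1, ← h2]

/-- `u'` is the derivative of `u` in the first variable -/
def HasX (u u' : WW) : Prop := ∀ x y, HasDerivAt (fun s => f1 u s y) (f1 u' x y) x

/-- `u'` is the derivative of `u` in the second variable -/
def HasY (u u' : WW) : Prop := ∀ x y, HasDerivAt (fun s => f1 u x s) (f1 u' x y) y

theorem HasX.mul {u u' v v' : WW} (h : HasX u u') (h' : HasX v v') : HasX (u * v) (u' * v + u * v') := by
  intro x y
  have h1 := (h x y).mul (h' x y)
  have e1 : (fun s => f1 (u * v) s y) = (fun s => f1 u s y) * (fun s => f1 v s y) := by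
    funext s
    exact f1_mul u v s y
  rw [e1]
  exact h1.congr_deriv (by rw [f1_add, f1_mul, f1_mul])

theorem HasY.mul {u u' v v' : WW} (h : HasY u u') (h' : HasY v v') : HasY (u * v) (u' * v + u * v') := by
  intro x y
  have h1 := (h x y).mul (h' x y)
  have e1 : (fun s => f1 (u * v) x s) = (fun s => f1 u x s) * (fun s => f1 v x s) := by
    funext s
    exact f1_mul u v x s
  rw [e1]
  exact h1.congr_deriv (by rw [f1_add, f1_mul, f1_mul])

theorem HasX.dx_eq {u u' : WW} (h : HasX u u') : dx (f1 u) = f1 u' := by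
  funext x y
  exact (h x y).deriv

theorem HasY.dy_eq {u u' : WW} (h : HasY u u') : dy (f1 u) = f1 u' := by
  funext x y
  exact (h x y).deriv

theorem HasX.i0 {u u' : WW} (h : HasX u u') : HasX (mu WB.i0 u) (mu WB.i0 u') := by
  intro x y
  have h1 : (fun s => f1 (mu WB.i0 u) s y) = fun s => fn (fun m => WB.i0 m * 1) u s y := by
    funext s
    rw [← mY_f1 u s y]
    exact mY_fn PB.one u s y
  rw [h1]
  refine (fn_hasDerivAt_x (PB.i0.mul PB.one) u x y).congr_deriv ?_
  have h2 : fn (fun m => s1 m * 1) u = f1 u' := by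
    rw [← h.dx_eq, f1, dx_fn PB.one]
  rw [← mY_f1 u' x y, ← h2, mY_fn (PB.s1.mul PB.one) u x y]
  congr 1
  funext m
  ring

theorem mY_dy {v v' : WW} (h : HasY v v') (x y : ℝ) : f1 (mu i0 v') x y = 0 := by
  rw [← mY_f1 v' x y, ← h.dy_eq, f1, dy_fn PB.one, mY_fn (PB.s2.mul PB.one) v x y]
  have : (fun m => i0 m * (s2 m * 1)) = fun _ => ((0 : ℝ) : ℂ) * 1 := by
    funext m
    rw [i0, s2]
    split
    · next h => rw [h]; simp
    · simp
  rw [this, fn_symb_smul 0 PB.one, zero_mul]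

theorem hasDerivAt_rho (b x : ℝ) : HasDerivAt (rho b) (2 * ww b x * rho b x) x := by
  have h1 : HasDerivAt (fun x => Real.exp (b * Real.cos x))
      (Real.exp (b * Real.cos x) * (b * (-Real.sin x))) x :=
    ((Real.hasDerivAt_cos x).const_mul b).exp
  refine h1.congr_deriv ?_
  rw [ww, rho]
  ring

theorem hasDerivAt_ww (b x : ℝ) : HasDerivAt (ww b) (ww' b x) x :=
  (Real.hasDerivAt_sin x).const_mul _

theorem rho_pos (b x : ℝ) : 0 < rho b x := Real.exp_pos _

theorem HasX.rhoI (b : ℝ) : HasX (WB.rhoI b) ((-2 : ℝ) • (WB.wE b * WB.rhoI b)) := by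
  intro x y
  have e1 : (fun s => f1 (WB.rhoI b) s y) = fun s => (rho b s)⁻¹ := by
    funext s
    exact f1_rhoI b s y
  rw [e1]
  refine ((hasDerivAt_rho b x).inv (rho_pos b x).ne').congr_deriv ?_
  have h2 := f1_mul (WB.wE b) (WB.rhoI b) x y
  rw [f1_rhoI, f1_wE] at h2
  rw [f1, fn_smul]
  rw [f1] at h2
  rw [h2]
  have := (rho_pos b x).ne'
  field_simp

theorem HasX.AE (p t : ℝ) : HasX (WB.AE p t) (AxE p t) := by
  intro x y
  have e1 : (fun s => f1 (WB.AE p t) s y) = fun s => AA p t s y := by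
    funext s
    exact f1_AE p t s y
  rw [e1, f1_AxE]
  have h1 : HasDerivAt (fun s : ℝ => y + s) 1 x := (hasDerivAt_id x).const_add y
  have h2 : HasDerivAt (fun s : ℝ => y - s) (-1) x := (hasDerivAt_id x).const_sub y
  have h3 := ((h1.cos.const_mul p).const_sub (-Real.sin y)).sub (h2.sin.const_mul (p * t))
  have e2 : (fun s => AA p t s y) =
      (fun s => -Real.sin y - p * Real.cos (y + s)) - fun s => p * t * Real.sin (y - s) := by
    funext s
    rfl
  rw [e2]
  refine h3.congr_deriv ?_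
  ring

theorem HasY.SE (p t : ℝ) : HasY (WB.SE p t) (WB.AE p t) := by
  intro x y
  have e1 : (fun s => f1 (WB.SE p t) x s) = fun s => SS p t x s := by
    funext s
    exact f1_SE p t x s
  rw [e1, f1_AE]
  have h1 : HasDerivAt (fun s : ℝ => s + x) 1 y := (hasDerivAt_id y).add_const x
  have h2 : HasDerivAt (fun s : ℝ => s - x) 1 y := (hasDerivAt_id y).sub_const x
  have h3 := ((Real.hasDerivAt_cos y).sub (h1.sin.const_mul p)).add (h2.cos.const_mul (p * t))
  have e2 : (fun s => SS p t x s) =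
      (Real.cos - (fun s => p * Real.sin (s + x))) + fun s => p * t * Real.cos (s - x) := by
    funext s
    rfl
  rw [e2]
  refine h3.congr_deriv ?_
  rw [AA]
  ring

theorem HasX.m1E (b p t : ℝ) : HasX (m1E b p t) (m1xE b p t) := by
  have h := (HasX.rhoI b).mul (HasX.AE p t)
  have e : (-2 : ℝ) • (WB.wE b * WB.rhoI b) * WB.AE p t + WB.rhoI b * AxE p t = m1xE b p t := by
    rw [m1xE, mul_sub, mul_smul_comm, smul_mul_assoc, neg_smul]
    have : WB.wE b * WB.rhoI b * WB.AE p t = WB.rhoI b * (WB.wE b * WB.AE p t) := by ring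
    rw [this]
    abel
  rw [e] at h
  exact h

theorem YI.hasY {v : WW} (h : YI v) : HasY v 0 := by
  intro x y
  have : (fun s => f1 v x s) = fun _ => f1 v x y := by
    funext s
    exact h.f1_eq x s y
  rw [this, f1_zero]
  exact hasDerivAt_const y _

theorem HasY.N1E (b p t : ℝ) : HasY (N1E b p t) (m1E b p t) := by
  have h := (YI.rhoI b).hasY.mul (HasY.SE p t)
  rw [zero_mul, zero_add] at h
  exact h

variable {b p n : ℝ}

theorem HasX.kapE (hn : 0 < n) (U : WW) : HasX (kapE p n U) (kxE p n U) := by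
  intro x y
  rw [f1]
  refine (fn_hasDerivAt_x PB.one _ x y).congr_deriv ?_
  rw [WB.kapE, kxE, f1, fn_sub, fn_smul, fn_mu (PB.s1.mul PB.one) (Ok.sK hn), fn_mu PB.one Ok.sD,
    fn_mu PB.one Ok.sN]
  have e : (fun m => s1 m * 1 * sK p n m) =
      fun m => 1 * sD p n m + ((-(p * n⁻¹) : ℝ) : ℂ) * (1 * sN p n m) := by
    funext m
    have hn' : ((n : ℝ) : ℂ) ≠ 0 := by exact_mod_cast hn.ne'
    rw [s1, sK, sD, sN, x1, x2]
    push_cast
    field_simp
    ring
  rw [e, fn_symb_add (PB.one.mul Ok.sD.pb) ((PB.one.mul Ok.sN.pb).smul _),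
    fn_symb_smul _ (PB.one.mul Ok.sN.pb)]
  ring

theorem HasY.kapE (hn : 0 < n) (U : WW) : HasY (kapE p n U) (kyE p n U) := by
  intro x y
  rw [f1]
  refine (fn_hasDerivAt_y PB.one _ x y).congr_deriv ?_
  rw [WB.kapE, kyE, f1, fn_smul, fn_mu (PB.s2.mul PB.one) (Ok.sK hn), fn_mu PB.one Ok.sN]
  have e : (fun m => s2 m * 1 * sK p n m) = fun m => ((n⁻¹ : ℝ) : ℂ) * (1 * sN p n m) := by
    funext m
    have hn' : ((n : ℝ) : ℂ) ≠ 0 := by exact_mod_cast hn.ne'
    rw [s2, sK, sN, x2]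
    push_cast
    field_simp
  rw [e, fn_symb_smul _ (PB.one.mul Ok.sN.pb)]

theorem kx_add (U : WW) : kxE p n U + p • kyE p n U = DkE p n U := by
  rw [kxE, kyE, DkE, smul_smul]
  abel

theorem HasX.vtE (hn : 0 < n) (t : ℝ) (U : WW) : HasX (vtE b p n t U) (vtxE b p n t U) :=
  ((HasX.m1E b p t).mul (HasX.kapE hn U)).i0

theorem i0_sD (u : WW) : mu i0 (mu (sD p n) u) = 0 := by
  rw [mu_mu Ok.i0 Ok.sD]
  refine mu_eq_zero (fun m => ?_) u
  rw [i0, sD, kr]
  split <;> simp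

theorem i0_sN (u : WW) : mu i0 (mu (sN p n) u) = 0 := by
  rw [mu_mu Ok.i0 Ok.sN]
  refine mu_eq_zero (fun m => ?_) u
  rw [i0, sN, kr]
  split <;> simp

theorem i0_sK (hn : 0 < n) (u : WW) : mu i0 (mu (sK p n) u) = 0 := by
  rw [mu_mu Ok.i0 (Ok.sK hn)]
  refine mu_eq_zero (fun m => ?_) u
  rw [i0, sK, kr]
  split <;> simp

theorem i0_i0 (u : WW) : mu i0 (mu i0 u) = mu i0 u := by
  rw [mu_mu Ok.i0 Ok.i0]
  congr 2
  funext m
  rw [i0]
  split <;> simp

theorem i0_yi (v u : WW) (hv : YI v) : mu i0 (v * u) = v * mu i0 u :=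
  mu_yi Ok.i0 (fun _ _ _ => rfl) v u hv

theorem YI.i0 (u : WW) : YI (mu WB.i0 u) := i0_i0 u

/-- parts -/
theorem parts (hn : 0 < n) (t : ℝ) (U : WW) (x y : ℝ) :
    f1 (mu i0 (N1E b p t * kyE p n U)) x y = -f1 (vtE b p n t U) x y := by
  have h := mY_dy ((HasY.N1E b p t).mul (HasY.kapE (p := p) hn U)) x y
  rw [map_add, f1_add] at h
  rw [vtE]
  linarith

end Run7.h99.WB
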