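import Mathlib
import Pool.Agent.Run7.h99.WB.Der

/-!
From the equation in the algebra to `Lin` and `BaseData`.
-/

open Set Filter Topology

namespace Run7.h99.WB

open Run7.h117 (Per CD dx dy mY rho vv ww ww' AA SS m1 N1 Lin DD BaseData th kk EE bet)

variable {b p n : ℝ}

theorem i0_of_GE (hn : 0 < n) {ε t : ℝ} {U M : WW} (h : GE b p n ε t U M = 0) : mu i0 U = 0 := by
  have h1 := congrArg (mu i0) h
  rw [GE, map_sub, map_sub, map_add, map_smul, i0_sD, i0_sN, i0_sK hn, i0_i0, map_zero] at h1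
  simpa using h1

theorem GE_struct (hn : 0 < n) {ε t : ℝ} {U M : WW} (h : GE b p n ε t U M = 0) :
    mu (sD p n) (X1E b p n ε t U) + n⁻¹ • mu (sN p n) (X2E b p n ε t U) -
      mu (sK p n) (X3E b p n ε t U M) = 0 := by
  have h1 := i0_of_GE hn h
  rw [GE, h1, sub_zero] at h
  exact h

theorem f1_m1E (t x y : ℝ) : f1 (m1E b p t) x y = m1 b p t x y := by
  rw [m1E, f1_mul, f1_rhoI, f1_AE, m1]
  ring

theorem f1_N1E (t x y : ℝ) : f1 (N1E b p t) x y = N1 b p t x y := by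
  rw [N1E, f1_mul, f1_rhoI, f1_SE, N1]
  ring

theorem f1_DkE (U : WW) (x y : ℝ) :
    f1 (DkE p n U) x y = f1 (kxE p n U) x y + p * f1 (kyE p n U) x y := by
  rw [← kx_add, f1_add, f1_smul]

theorem f1_NkE (hn : 0 < n) (U : WW) (x y : ℝ) :
    f1 (NkE p n U) x y = n * f1 (kyE p n U) x y := by
  rw [kyE, f1_smul, NkE]
  have := hn.ne'
  field_simp

theorem dy_rhoN (hn : 0 < n) (U : WW) (x y : ℝ) :
    dy (f1 (n • (rhoE b * NkE p n U))) x y = n ^ 2 * rho b x * dy (f1 (kyE p n U)) x y := by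
  have e : (fun s => f1 (n • (rhoE b * NkE p n U)) x s) =
      fun s => (n ^ 2 * rho b x) * f1 (kyE p n U) x s := by
    funext s
    rw [f1_smul, f1_mul, f1_rhoE, f1_NkE hn]
    ring
  show deriv (fun s => f1 (n • (rhoE b * NkE p n U)) x s) y = _
  rw [e]
  exact ((fn_hasDerivAt_y PB.one (kyE p n U) x y).const_mul (n ^ 2 * rho b x)).deriv.trans (by
    rw [f1, dy_fn PB.one])

theorem lin_of (hn : 0 < n) {t : ℝ} {U : WW} (hF : FE b p n 0 t U = 0) (hH : mu h1s U = U) :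
    Lin b p n t (f1 (kapE p n U)) := by
  have hX1 : X1E b p n 0 t U = rhoE b * DkE p n U := by
    rw [X1E, QE]
    simp
  have hX2 : X2E b p n 0 t U = n • (rhoE b * NkE p n U) := by
    rw [X2E]
    simp
  have hX3 : ∀ M, X3E b p n 0 t U M = rhoE b * (wpE b * m1E b p t) := by
    intro M
    rw [X3E, kE, lamE]
    simp
  refine ⟨fn_CD PB.one _, fn_per PB.one _, fun x y => ?_, fun x y => ?_⟩
  · refine harm_aux ?_ x y
    rw [kapE, mu_comm Ok.h1s (Ok.sK hn), hH]
  · have hS := GE_struct hn (M := ME b p n 0 t U) hF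
    rw [hX1, hX2, hX3] at hS
    have hM : ∀ x, HasDerivAt (mY (f1 (rhoE b * DkE p n U)))
        (mY (f1 (rhoE b * (wpE b * m1E b p t))) x) x := by
      intro x
      have e1 : mY (f1 (rhoE b * DkE p n U)) = fun _ => 0 := by
        funext x
        rw [mY_f1 _ x 0, i0_yi _ _ (YI.rhoE b), DkE, i0_sD, mul_zero, f1_zero]
      have e2 : mY (f1 (rhoE b * (wpE b * m1E b p t))) x = 0 := by
        rw [mY_f1 _ x 0, i0_yi _ _ (YI.rhoE b), i0_yi _ _ (YI.wpE b), m1E, i0_yi _ _ (YI.rhoI b),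
          i0_AE, mul_zero, mul_zero, mul_zero, f1_zero]
      rw [e1, e2]
      exact hasDerivAt_const x 0
    have h := struct hn _ _ _ hS hM x y
    rw [dy_rhoN hn] at h
    have e1 : (fun x y => rho b x * DD p (f1 (kapE p n U)) x y) = f1 (rhoE b * DkE p n U) := by
      funext x y
      rw [f1_mul, f1_rhoE, f1_DkE, DD, (HasX.kapE hn U).dx_eq, (HasY.kapE hn U).dy_eq]
    have e2 : f1 (rhoE b * (wpE b * m1E b p t)) x y = ww' b x * AA p t x y := by
      rw [f1_mul, f1_mul, f1_rhoE, f1_wpE, f1_m1E, m1]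
      have := (rho_pos b x).ne'
      field_simp
    rw [e1, (HasY.kapE hn U).dy_eq, ← e2]
    exact h

/-- indicator of the zero mode -/
noncomputable def i00 (m : ℤ × ℤ) : ℂ := if m = 0 then 1 else 0

theorem PB.i00 : PB i00 := PB.of_bdd 1 fun m => by
  rw [WB.i00]
  split <;> simp

theorem ev_i00 (z : ℝ × ℝ) (a : Al) : ev i00 z a = ev i00 0 a := by
  have : ev i00 z = ev i00 0 := ext_mon fun m => by
    rw [ev_mon PB.i00, ev_mon PB.i00, i00]
    split
    · next h => rw [h, ee_zero, ee_zero]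
    · simp
  rw [this]

/-- the average over the torus -/
noncomputable def avg : WW →L[ℝ] ℝ := er i00 0 0

theorem fn_i00 (u : WW) (x y : ℝ) : fn i00 u x y = avg u := by
  rw [fn_def, ev_i00]
  rfl

theorem YI.sJ (V : WW) (hV : YI V) : YI (mu sJ V) := by
  rw [YI, mu_comm Ok.i0 Ok.sJ, show mu WB.i0 V = V from hV]

theorem dx_sJ (V : WW) (hV : YI V) (x y : ℝ) :
    HasDerivAt (fun s => f1 (mu sJ V) s y) (f1 V x y - avg V) x := by
  rw [f1]
  refine (fn_hasDerivAt_x PB.one _ x y).congr_deriv ?_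
  rw [fn_mu (PB.s1.mul PB.one) Ok.sJ, ← fn_i00 V x y]
  have e : (fun m => s1 m * 1 * sJ m) = fun m => i0 m * 1 + ((-1 : ℝ) : ℂ) * i00 m := by
    funext m
    rw [s1, sJ, i0, i00]
    by_cases h1 : m.2 = 0
    · by_cases h2 : m.1 = 0
      · have h3 : m = 0 := Prod.ext h2 h1
        subst h3
        simp
      · have h3 : m ≠ 0 := fun h => h2 (by rw [h]; rfl)
        rw [if_pos h1, if_neg h2, if_pos h1, if_neg h3]
        have h4 : ((m.1 : ℝ) : ℂ) ≠ 0 := by exact_mod_cast h2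
        push_cast at h4 ⊢
        field_simp
        rw [Complex.I_sq]
        ring
    · have h3 : m ≠ 0 := fun h => h1 (by rw [h]; rfl)
      rw [if_neg h1, if_neg h1, if_neg h3]
      simp
  rw [e, fn_symb_add (PB.i0.mul PB.one) (PB.i00.smul _), fn_symb_smul _ PB.i00]
  have h5 : fn (fun m => i0 m * 1) V x y = f1 V x y := by
    rw [← mY_fn PB.one V x y]
    rw [show mY (fn (fun _ => 1) V) x = f1 (mu i0 V) x y from mY_f1 V x y,
      show mu i0 V = V from hV]
  rw [h5]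
  ring

theorem YI.vtE (t : ℝ) (U : WW) : YI (vtE b p n t U) := YI.i0 _

theorem YI.vtxE (t : ℝ) (U : WW) : YI (vtxE b p n t U) := YI.i0 _

theorem YI.wvt (t : ℝ) (U : WW) : YI ((2 : ℝ) • (WB.wE b * WB.vtE b p n t U)) :=
  ((YI.wE b).mul (YI.vtE t U)).smul _

theorem slice_CD (u : WW) : ContDiff ℝ (⊤ : ℕ∞) (fun x => f1 u x 0) := by
  have h1 : ContDiff ℝ (⊤ : ℕ∞) (fun x : ℝ => (x, (0 : ℝ))) := by fun_prop
  have h2 : ContDiff ℝ (⊤ : ℕ∞) (fun z : ℝ × ℝ => fn (fun _ => 1) u z.1 z.2) := fn_CD PB.one u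
  have h3 := h2.comp h1
  have e : ((fun z : ℝ × ℝ => fn (fun _ => 1) u z.1 z.2) ∘ fun x : ℝ => (x, (0 : ℝ))) =
      fun x => f1 u x 0 := rfl
  rw [e] at h3
  exact h3

theorem YI.LamE (t : ℝ) (U : WW) : YI (LamE b p n t U) := YI.sJ _ (YI.wvt t U)

theorem YI.lamE (ε t : ℝ) (U : WW) : YI (lamE b p n ε t U) := YI.one.add ((YI.LamE t U).smul _)

theorem YI.ring_inverse {v : WW} (hv : YI v) (hu : IsUnit v) : YI (Ring.inverse v) := by
  have h1 : v * mu WB.i0 (Ring.inverse v) = 1 := by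
    rw [← i0_yi v _ hv, Ring.mul_inverse_cancel v hu]
    exact YI.one
  calc mu WB.i0 (Ring.inverse v) = (Ring.inverse v * v) * mu WB.i0 (Ring.inverse v) := by
        rw [Ring.inverse_mul_cancel v hu, one_mul]
    _ = Ring.inverse v := by rw [mul_assoc, h1, mul_one]

theorem lam_add (ε t : ℝ) (U : WW) : lamE b p n ε t U + ε ^ 2 • vtE b p n t U =
    1 + ε ^ 2 • (LamE b p n t U + vtE b p n t U) := by
  rw [lamE, smul_add, add_assoc]

theorem i0_m1E (t : ℝ) : mu i0 (m1E b p t) = 0 := by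
  rw [m1E, i0_yi _ _ (YI.rhoI b), i0_AE, mul_zero]

theorem i0_m1k (ε t : ℝ) (U : WW) : mu i0 (m1E b p t * kE b p n ε t U) = ε • vtE b p n t U := by
  rw [kE, mul_add, map_add, mul_comm (m1E b p t) (lamE b p n ε t U), i0_yi _ _ (YI.lamE ε t U),
    i0_m1E, mul_zero, zero_add, mul_smul_comm, map_smul, vtE]

theorem i0_kE (hn : 0 < n) (ε t : ℝ) (U : WW) : mu i0 (kE b p n ε t U) = lamE b p n ε t U := by
  rw [kE, map_add, show mu i0 (lamE b p n ε t U) = _ from YI.lamE ε t U, map_smul, kapE, i0_sK hn,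
    smul_zero, add_zero]

theorem i0_X3E (hn : 0 < n) (ε t : ℝ) (U : WW)
    (hu : IsUnit (1 + ε ^ 2 • (LamE b p n t U + vtE b p n t U))) :
    mu i0 (X3E b p n ε t U (ME b p n ε t U)) = ε • (rhoE b * (wpE b * vtE b p n t U) +
      rhoE b * (wE b * ((2 : ℝ) • (wE b * vtE b p n t U) + vtxE b p n t U))) := by
  have hY : YI (1 + ε ^ 2 • (LamE b p n t U + vtE b p n t U)) :=
    YI.one.add (((YI.LamE t U).add (YI.vtE t U)).smul _)
  have hM : YI (ME b p n ε t U) := hY.ring_inverse hu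
  have h1 : mu i0 ((1 + ε • m1E b p t) * kE b p n ε t U) =
      lamE b p n ε t U + ε ^ 2 • vtE b p n t U := by
    rw [add_mul, one_mul, map_add, i0_kE hn, smul_mul_assoc, map_smul, i0_m1k, smul_smul]
    congr 2
    ring
  rw [X3E, map_add, i0_yi _ _ (YI.rhoE b), i0_yi _ _ (YI.wpE b), i0_m1k, map_smul,
    i0_yi _ _ (YI.rhoE b), i0_yi _ _ (YI.wE b), i0_yi _ _ hM,
    i0_yi _ _ ((YI.wvt t U).add (YI.vtxE t U)), h1, lam_add]
  have h2 : ME b p n ε t U * (((2 : ℝ) • (wE b * vtE b p n t U) + vtxE b p n t U) *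
      (1 + ε ^ 2 • (LamE b p n t U + vtE b p n t U))) =
      (2 : ℝ) • (wE b * vtE b p n t U) + vtxE b p n t U := by
    have h3 : ME b p n ε t U * (1 + ε ^ 2 • (LamE b p n t U + vtE b p n t U)) = 1 :=
      Ring.inverse_mul_cancel _ hu
    calc _ = ((2 : ℝ) • (wE b * vtE b p n t U) + vtxE b p n t U) *
          (ME b p n ε t U * (1 + ε ^ 2 • (LamE b p n t U + vtE b p n t U))) := by ring
      _ = _ := by rw [h3, mul_one]
  rw [h2]
  simp only [mul_smul_comm, smul_add]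

theorem i0_X1E (hn : 0 < n) (ε t : ℝ) (U : WW) (x y : ℝ) :
    f1 (mu i0 (X1E b p n ε t U)) x y = ε * (rho b x * (ww b x * f1 (vtE b p n t U) x y)) := by
  rw [X1E, i0_yi _ _ (YI.rhoE b), QE, map_add, map_add, DkE, i0_sD, map_smul, map_smul,
    i0_yi _ _ (YI.wE b), i0_yi _ _ (YI.wE b), show mu i0 (vtE b p n t U) = _ from YI.vtE t U,
    add_zero, f1_mul, f1_add, f1_smul, f1_smul, f1_mul, f1_mul, parts hn, f1_rhoE, f1_wE]
  ring

/-- the mean relation -/
theorem mean_rel (hn : 0 < n) (ε t : ℝ) (U : WW)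
    (hu : IsUnit (1 + ε ^ 2 • (LamE b p n t U + vtE b p n t U))) (x : ℝ) :
    HasDerivAt (mY (f1 (X1E b p n ε t U))) (mY (f1 (X3E b p n ε t U (ME b p n ε t U))) x) x := by
  have e1 : mY (f1 (X1E b p n ε t U)) =
      fun x => ε * (rho b x * (ww b x * f1 (vtE b p n t U) x 0)) := by
    funext x
    rw [mY_f1 _ x 0, i0_X1E hn]
  rw [e1, mY_f1 _ x 0, i0_X3E hn ε t U hu]
  have h1 := HasX.vtE (b := b) (p := p) hn t U x 0
  have h2 := ((hasDerivAt_rho b x).mul ((hasDerivAt_ww b x).mul h1)).const_mul ε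
  refine HasDerivAt.congr_deriv h2 ?_
  rw [f1_smul, f1_add, f1_mul, f1_mul, f1_mul, f1_mul, f1_add, f1_smul, f1_mul, f1_rhoE, f1_wpE,
    f1_wE]
  simp only [Pi.mul_apply]
  ring

theorem th_eq (ε t : ℝ) (U : WW) (x y : ℝ) :
    th b p ε t (f1 (kapE p n U)) x = ε ^ 2 * f1 (vtE b p n t U) x y := by
  have e : (fun x y => (ε * m1 b p t x y) * (ε * f1 (kapE p n U) x y)) =
      f1 (ε ^ 2 • (m1E b p t * kapE p n U)) := by
    funext x y
    rw [f1_smul, f1_mul, f1_m1E]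
    ring
  rw [th, e, mY_f1 _ x y, map_smul, f1_smul, vtE]

theorem th_deriv (hn : 0 < n) (ε t : ℝ) (U : WW) (x : ℝ) :
    HasDerivAt (th b p ε t (f1 (kapE p n U))) (ε ^ 2 * f1 (vtxE b p n t U) x 0) x := by
  have e : th b p ε t (f1 (kapE p n U)) = fun x => ε ^ 2 * f1 (vtE b p n t U) x 0 := by
    funext x
    exact th_eq ε t U x 0
  rw [e]
  exact (HasX.vtE hn t U x 0).const_mul _

theorem lam_deriv (ε t : ℝ) (U : WW) (hS : avg (wE b * vtE b p n t U) = 0) (x : ℝ) :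
    HasDerivAt (fun x => f1 (lamE b p n ε t U) x 0)
      (ε ^ 2 * (2 * (ww b x * f1 (vtE b p n t U) x 0))) x := by
  have h1 := dx_sJ _ (YI.wvt (b := b) (p := p) (n := n) t U) x 0
  have h2 : avg ((2 : ℝ) • (wE b * vtE b p n t U)) = 0 := by
    rw [map_smul, hS, smul_zero]
  rw [h2, sub_zero, f1_smul, f1_mul, f1_wE] at h1
  have e : (fun x => f1 (lamE b p n ε t U) x 0) = fun x => 1 + ε ^ 2 * f1 (LamE b p n t U) x 0 := by
    funext x
    rw [lamE, f1_add, f1_smul, f1_one]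
  rw [e]
  exact (h1.const_mul _).const_add 1

theorem base_of (hn : 0 < n) {ε t : ℝ} {U : WW} (hF : FE b p n ε t U = 0)
    (hu : IsUnit (1 + ε ^ 2 • (LamE b p n t U + vtE b p n t U)))
    (hS : avg (wE b * vtE b p n t U) = 0) :
    BaseData b p n ε t (f1 (kapE p n U)) (fun x => f1 (lamE b p n ε t U) x 0)
      (fun x => f1 (ME b p n ε t U) x 0) := by
  have hY : YI (1 + ε ^ 2 • (LamE b p n t U + vtE b p n t U)) :=
    YI.one.add (((YI.LamE t U).add (YI.vtE t U)).smul _)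
  have hYM : YI (ME b p n ε t U) := hY.ring_inverse hu
  refine ⟨fn_CD PB.one _, fn_per PB.one _, fun x => ?_, ?_, fun x => ?_, ?_, fun x => ?_,
    fun x => ?_, fun x => ?_, fun x y => ?_⟩
  · rw [mY_f1 _ x 0, kapE, i0_sK hn, f1_zero]
  · exact slice_CD _
  · exact (fn_per PB.one _).1 x 0
  · exact slice_CD _
  · exact (fn_per PB.one _).1 x 0
  · rw [(lam_deriv ε t U hS x).deriv, th_eq ε t U x 0]
    ring
  · have h3 : ME b p n ε t U * (1 + ε ^ 2 • (LamE b p n t U + vtE b p n t U)) = 1 :=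
      Ring.inverse_mul_cancel _ hu
    rw [th_eq ε t U x 0, ← f1_smul, ← f1_add, lam_add, ← f1_mul, h3, f1_one]
  · have hkk : ∀ x y, kk ε (fun x => f1 (lamE b p n ε t U) x 0) (f1 (kapE p n U)) x y =
        f1 (kE b p n ε t U) x y := by
      intro x y
      rw [kk, kE, f1_add, f1_smul, (YI.lamE ε t U).f1_eq x 0 y]
    have hkx : ∀ x y, dx (kk ε (fun x => f1 (lamE b p n ε t U) x 0) (f1 (kapE p n U))) x y =
        ε ^ 2 * (2 * (ww b x * f1 (vtE b p n t U) x y)) + ε * f1 (kxE p n U) x y := by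
      intro x y
      have h1 := (lam_deriv ε t U hS x).add ((HasX.kapE (p := p) hn U x y).const_mul ε)
      rw [(YI.vtE t U).f1_eq x 0 y] at h1
      exact h1.deriv
    have hky : dy (kk ε (fun x => f1 (lamE b p n ε t U) x 0) (f1 (kapE p n U))) =
        fun x y => ε * f1 (kyE p n U) x y := by
      funext x y
      exact (((HasY.kapE (p := p) hn U x y).const_mul ε).const_add (f1 (lamE b p n ε t U) x 0)).deriv
    have hE : ∀ x y, EE b p ε t (kk ε (fun x => f1 (lamE b p n ε t U) x 0) (f1 (kapE p n U))) x y =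
        ε * f1 (QE b p n ε t U) x y := by
      intro x y
      rw [EE, hkx, hky, bet, QE, f1_add, f1_add, f1_smul, f1_smul, f1_mul, f1_mul, f1_mul, f1_wE,
        f1_N1E, f1_DkE]
      ring
    have hE1 : (fun x y => rho b x *
        EE b p ε t (kk ε (fun x => f1 (lamE b p n ε t U) x 0) (f1 (kapE p n U))) x y) =
        f1 (ε • X1E b p n ε t U) := by
      funext x y
      rw [hE, f1_smul, X1E, f1_mul, f1_rhoE]
      ring
    have hE2 : (fun x y => bet b p ε t x y * (rho b x *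
        EE b p ε t (kk ε (fun x => f1 (lamE b p n ε t U) x 0) (f1 (kapE p n U))) x y)) =
        f1 (ε • (p • X1E b p n ε t U + ε • (wE b * (N1E b p t * X1E b p n ε t U)))) := by
      funext x y
      rw [hE, f1_smul, f1_add, f1_smul, f1_smul, f1_mul, f1_mul, X1E, f1_mul, f1_rhoE, f1_wE,
        f1_N1E, bet]
      ring
    rw [hE1, hE2]
    have hst := struct hn _ _ _ (GE_struct hn hF) (mean_rel hn ε t U hu) x y
    have d1 : dx (f1 (ε • X1E b p n ε t U)) x y = ε * dx (f1 (X1E b p n ε t U)) x y := by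
      rw [f1, f1, dx_fn PB.one, dx_fn PB.one, fn_smul]
    have d2 : dy (f1 (ε • (p • X1E b p n ε t U + ε • (wE b * (N1E b p t * X1E b p n ε t U))))) x y =
        ε * (p * dy (f1 (X1E b p n ε t U)) x y +
          ε * dy (f1 (wE b * (N1E b p t * X1E b p n ε t U))) x y) := by
      rw [f1, f1, f1, dy_fn PB.one, dy_fn PB.one, dy_fn PB.one, fn_smul, fn_add, fn_smul, fn_smul]
    have d3 : dy (f1 (X2E b p n ε t U)) x y =
        ε * dy (f1 (wE b * (N1E b p t * X1E b p n ε t U))) x y +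
          n ^ 2 * rho b x * dy (f1 (kyE p n U)) x y := by
      rw [← dy_rhoN hn, X2E, f1, f1, f1, dy_fn PB.one, dy_fn PB.one, dy_fn PB.one, fn_add, fn_smul]
    have d4 : dy (dy (kk ε (fun x => f1 (lamE b p n ε t U) x 0) (f1 (kapE p n U)))) x y =
        ε * dy (f1 (kyE p n U)) x y := by
      rw [hky]
      exact ((fn_hasDerivAt_y PB.one (kyE p n U) x y).const_mul ε).deriv.trans (by
        rw [f1, dy_fn PB.one])
    rw [d1, d2, d4, (th_deriv hn ε t U x).deriv, th_eq ε t U x y, hkk]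
    have h3 : f1 (X3E b p n ε t U (ME b p n ε t U)) x y =
        rho b x * (ww' b x * (m1 b p t x y * f1 (kE b p n ε t U) x y)) +
        ε * (rho b x * (ww b x * (f1 (ME b p n ε t U) x y *
          ((2 * (ww b x * f1 (vtE b p n t U) x y) + f1 (vtxE b p n t U) x y) *
            ((1 + ε * m1 b p t x y) * f1 (kE b p n ε t U) x y))))) := by
      rw [X3E, f1_add, f1_smul]
      simp only [f1_mul, f1_add, f1_smul, f1_rhoE, f1_wE, f1_wpE, f1_m1E, f1_one]
    rw [h3, d3] at hst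
    rw [hYM.f1_eq x 0 y, (YI.vtxE t U).f1_eq x 0 y]
    linear_combination ε * hst

end Run7.h99.WB
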