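import Mathlib
import Pool.Agent.Run7.h99.WB.Bd

/-!
Smoothness of the equation and the implicit function.
-/

open Set Filter Topology

namespace Run7.h99.WB

variable {b p n : ℝ}

/-- the space of all variables -/
abbrev EV : Type := (ℝ × ℝ) × WW

theorem AE_cd : ContDiff ℝ 1 (fun z : EV => AE p z.1.2) := by
  unfold AE
  fun_prop

theorem SE_cd : ContDiff ℝ 1 (fun z : EV => SE p z.1.2) := by
  unfold SE
  fun_prop

theorem AxE_cd : ContDiff ℝ 1 (fun z : EV => AxE p z.1.2) := by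
  unfold AxE
  fun_prop

theorem m1E_cd : ContDiff ℝ 1 (fun z : EV => m1E b p z.1.2) := by
  unfold m1E
  have := AE_cd (p := p)
  fun_prop

theorem N1E_cd : ContDiff ℝ 1 (fun z : EV => N1E b p z.1.2) := by
  unfold N1E
  have := SE_cd (p := p)
  fun_prop

theorem m1xE_cd : ContDiff ℝ 1 (fun z : EV => m1xE b p z.1.2) := by
  unfold m1xE
  have := AE_cd (p := p)
  have := AxE_cd (p := p)
  fun_prop

theorem kapE_cd : ContDiff ℝ 1 (fun z : EV => kapE p n z.2) := by
  unfold kapE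
  fun_prop

theorem DkE_cd : ContDiff ℝ 1 (fun z : EV => DkE p n z.2) := by
  unfold DkE
  fun_prop

theorem NkE_cd : ContDiff ℝ 1 (fun z : EV => NkE p n z.2) := by
  unfold NkE
  fun_prop

theorem kyE_cd : ContDiff ℝ 1 (fun z : EV => kyE p n z.2) := by
  unfold kyE
  fun_prop

theorem kxE_cd : ContDiff ℝ 1 (fun z : EV => kxE p n z.2) := by
  unfold kxE
  fun_prop

theorem vtE_cd : ContDiff ℝ 1 (fun z : EV => vtE b p n z.1.2 z.2) := by
  unfold vtE
  have := m1E_cd (b := b) (p := p)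
  have := kapE_cd (n := n) (p := p)
  fun_prop

theorem vtxE_cd : ContDiff ℝ 1 (fun z : EV => vtxE b p n z.1.2 z.2) := by
  unfold vtxE
  have := m1E_cd (b := b) (p := p)
  have := m1xE_cd (b := b) (p := p)
  have := kapE_cd (n := n) (p := p)
  have := kxE_cd (n := n) (p := p)
  fun_prop

theorem LamE_cd : ContDiff ℝ 1 (fun z : EV => LamE b p n z.1.2 z.2) := by
  unfold LamE
  have := vtE_cd (b := b) (p := p) (n := n)
  fun_prop

theorem lamE_cd : ContDiff ℝ 1 (fun z : EV => lamE b p n z.1.1 z.1.2 z.2) := by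
  unfold lamE
  have := LamE_cd (b := b) (p := p) (n := n)
  fun_prop

theorem kE_cd : ContDiff ℝ 1 (fun z : EV => kE b p n z.1.1 z.1.2 z.2) := by
  unfold kE
  have := lamE_cd (b := b) (p := p) (n := n)
  have := kapE_cd (n := n) (p := p)
  fun_prop

theorem QE_cd : ContDiff ℝ 1 (fun z : EV => QE b p n z.1.1 z.1.2 z.2) := by
  unfold QE
  have := vtE_cd (b := b) (p := p) (n := n)
  have := DkE_cd (n := n) (p := p)
  have := kyE_cd (n := n) (p := p)
  have := N1E_cd (b := b) (p := p)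
  fun_prop

theorem X1E_cd : ContDiff ℝ 1 (fun z : EV => X1E b p n z.1.1 z.1.2 z.2) := by
  unfold X1E
  have := QE_cd (b := b) (p := p) (n := n)
  fun_prop

theorem X2E_cd : ContDiff ℝ 1 (fun z : EV => X2E b p n z.1.1 z.1.2 z.2) := by
  unfold X2E
  have := X1E_cd (b := b) (p := p) (n := n)
  have := N1E_cd (b := b) (p := p)
  have := NkE_cd (n := n) (p := p)
  fun_prop

theorem ME_cd (t : ℝ) (U : WW) : ContDiffAt ℝ 1 (fun z : EV => ME b p n z.1.1 z.1.2 z.2) ((0, t), U) := by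
  unfold ME
  have h1 : ContDiff ℝ 1 (fun z : EV => (1 : WW) + z.1.1 ^ 2 • (LamE b p n z.1.2 z.2 +
      vtE b p n z.1.2 z.2)) := by
    have := vtE_cd (b := b) (p := p) (n := n)
    have := LamE_cd (b := b) (p := p) (n := n)
    fun_prop
  have h2 : ContDiffAt ℝ 1 (Ring.inverse : WW → WW) ((1 : WWˣ) : WW) := contDiffAt_ringInverse ℝ 1
  refine ContDiffAt.comp ((0, t), U) (g := (Ring.inverse : WW → WW)) ?_ h1.contDiffAt
  have e : (1 : WW) + (0 : ℝ) ^ 2 • (LamE b p n t U + vtE b p n t U) = ((1 : WWˣ) : WW) := by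
    simp
  simp only
  rw [e]
  exact h2

theorem X3E_cd (t : ℝ) (U : WW) : ContDiffAt ℝ 1
    (fun z : EV => X3E b p n z.1.1 z.1.2 z.2 (ME b p n z.1.1 z.1.2 z.2)) ((0, t), U) := by
  unfold X3E
  have h1 := (m1E_cd (b := b) (p := p)).contDiffAt (x := ((0, t), U))
  have h2 := (kE_cd (b := b) (p := p) (n := n)).contDiffAt (x := ((0, t), U))
  have h3 := (vtE_cd (b := b) (p := p) (n := n)).contDiffAt (x := ((0, t), U))
  have h4 := (vtxE_cd (b := b) (p := p) (n := n)).contDiffAt (x := ((0, t), U))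
  have h5 := ME_cd (b := b) (p := p) (n := n) t U
  fun_prop

theorem FE_cd (t : ℝ) (U : WW) : ContDiffAt ℝ 1
    (fun z : EV => FE b p n z.1.1 z.1.2 z.2) ((0, t), U) := by
  unfold FE GE
  have h1 := (X1E_cd (b := b) (p := p) (n := n)).contDiffAt (x := ((0, t), U))
  have h2 := (X2E_cd (b := b) (p := p) (n := n)).contDiffAt (x := ((0, t), U))
  have h3 := X3E_cd (b := b) (p := p) (n := n) t U
  fun_prop

end Run7.h99.WB
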