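import Mathlib
import Pool.Agent.Run7.h99.WB.Smooth

/-!
Piece (B): existence of the base data.
-/

open Set Filter Topology Real MeasureTheory

namespace Run7.h99.WB

open Run7.h117

variable {b p n : ℝ}

theorem partial_inv (hn : 0 < n) (hb : 0 < b) (hb' : b ≤ 1 / 10) (t : ℝ) (U : WW) :
    (fderiv ℝ (fun z : EV => FE b p n z.1.1 z.1.2 z.2) ((0, t), U) ∘L
      .inr ℝ (ℝ × ℝ) WW).IsInvertible := by
  obtain ⟨e, he⟩ := TT_equiv b p n hb hb'
  have h1 := ((FE_cd (b := b) (p := p) (n := n) t U).differentiableAt (by norm_num)).hasFDerivAt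
  have h2 : HasFDerivAt (fun V : WW => (((0 : ℝ), t), V)) (ContinuousLinearMap.inr ℝ (ℝ × ℝ) WW) U :=
    hasFDerivAt_prodMk_right _ _
  have h3 := h1.comp U h2
  have h4 : ((fun z : EV => FE b p n z.1.1 z.1.2 z.2) ∘ fun V : WW => (((0 : ℝ), t), V)) =
      fun V => -(e V) - sE b p n t := by
    funext V
    show FE b p n 0 t V = _
    rw [FE_zero b p n hn, he]
    abel
  rw [h4] at h3
  have h5 : HasFDerivAt (fun V => -(e V) - sE b p n t) (-(e : WW →L[ℝ] WW)) U :=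
    ((e : WW →L[ℝ] WW).hasFDerivAt.neg).sub_const _
  rw [h3.unique h5]
  refine ⟨e.trans (ContinuousLinearEquiv.neg ℝ), ?_⟩
  ext V
  simp

theorem fn_bound {σ : ℤ × ℤ → ℂ} (h : PB σ) : ∃ C : ℝ, 0 ≤ C ∧ ∀ u x y, |fn σ u x y| ≤ C * ‖u‖ := by
  obtain ⟨C, hC, hb⟩ := h.bound
  exact ⟨C, hC, fun u x y => abs_fn_le h C hC hb u x y⟩

theorem close_of (η : ℝ) (hη : 0 < η) (hn : 0 < n) :
    ∃ δ > 0, ∀ U V : WW, ‖U - V‖ ≤ δ → Close η (f1 (kapE p n U)) (f1 (kapE p n V)) := by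
  have hs1 : PB (fun m => s1 m * 1) := PB.s1.mul PB.one
  have hs2 : PB (fun m => s2 m * 1) := PB.s2.mul PB.one
  obtain ⟨C0, hC0, h0⟩ := fn_bound PB.one
  obtain ⟨C1, hC1, h1⟩ := fn_bound hs1
  obtain ⟨C2, hC2, h2⟩ := fn_bound hs2
  obtain ⟨C3, hC3, h3⟩ := fn_bound (PB.s1.mul hs1)
  obtain ⟨C4, hC4, h4⟩ := fn_bound (PB.s1.mul hs2)
  obtain ⟨C5, hC5, h5⟩ := fn_bound (PB.s2.mul hs2)
  have hK : ∀ u : WW, ‖kapE p n u‖ ≤ n⁻¹ * ‖u‖ := fun u => by
    rw [kapE]
    exact norm_mu_le (Ok.sK hn) n⁻¹ (fun m => by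
      rw [WB.sK, Complex.norm_real, Real.norm_eq_abs, abs_of_nonneg (kr_nonneg m)]
      exact kr_le hn m) u
  set C := C0 + C1 + C2 + C3 + C4 + C5 + 1 with hC
  have hCpos : 0 < C := by positivity
  refine ⟨η / (C * n⁻¹), by positivity, fun U V hUV => ?_⟩
  have key : ∀ (σ : ℤ × ℤ → ℂ) (D : ℝ), (∀ u x y, |fn σ u x y| ≤ D * ‖u‖) → 0 ≤ D → D ≤ C →
      ∀ x y, |fn σ (kapE p n U) x y - fn σ (kapE p n V) x y| ≤ η := by
    intro σ D hD hD0 hDC x y
    rw [← fn_sub]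
    have e : kapE p n U - kapE p n V = kapE p n (U - V) := by
      rw [kapE, kapE, kapE, map_sub]
    rw [e]
    calc |fn σ (kapE p n (U - V)) x y| ≤ D * ‖kapE p n (U - V)‖ := hD _ _ _
      _ ≤ C * (n⁻¹ * (η / (C * n⁻¹))) := by
          refine mul_le_mul hDC ((hK _).trans ?_) (norm_nonneg _) hCpos.le
          exact mul_le_mul_of_nonneg_left hUV (by positivity)
      _ = η := by field_simp
  intro x y
  rw [f1, f1, dx_fn PB.one, dx_fn PB.one, dy_fn PB.one, dy_fn PB.one, dx_fn hs1, dx_fn hs1,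
    dx_fn hs2, dx_fn hs2, dy_fn hs2, dy_fn hs2]
  exact ⟨key _ C0 h0 hC0 (by linarith) x y, key _ C1 h1 hC1 (by linarith) x y,
    key _ C2 h2 hC2 (by linarith) x y, key _ C3 h3 hC3 (by linarith) x y,
    key _ C4 h4 hC4 (by linarith) x y, key _ C5 h5 hC5 (by linarith) x y⟩

theorem CC_eq (t : ℝ) (U : WW) :
    CC b p t (f1 (kapE p n U)) = 2 * π * avg (wE b * vtE b p n t U) := by
  have hV : YI (wE b * vtE b p n t U) := (YI.wE b).mul (YI.vtE t U)
  have e1 : (fun x => ww b x * mY (fun x y => m1 b p t x y * f1 (kapE p n U) x y) x) =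
      fun x => f1 (wE b * vtE b p n t U) x 0 := by
    funext x
    have e2 : (fun x y => m1 b p t x y * f1 (kapE p n U) x y) = f1 (m1E b p t * kapE p n U) := by
      funext x y
      rw [f1_mul, f1_m1E]
    rw [e2, mY_f1 _ x 0, f1_mul, f1_wE, vtE]
  rw [CC, e1]
  have h1 : ∀ x : ℝ, HasDerivAt (fun s => f1 (mu sJ (wE b * vtE b p n t U)) s 0)
      (f1 (wE b * vtE b p n t U) x 0 - avg (wE b * vtE b p n t U)) x := fun x => dx_sJ _ hV x 0
  have hc : Continuous (fun x => f1 (wE b * vtE b p n t U) x 0) := (slice_CD _).continuous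
  have h2 := intervalIntegral.integral_eq_sub_of_hasDerivAt (a := 0) (b := 2 * π)
    (fun x _ => h1 x) ((hc.sub continuous_const).intervalIntegrable _ _)
  rw [intervalIntegral.integral_sub (hc.intervalIntegrable _ _)
    (continuous_const.intervalIntegrable _ _), intervalIntegral.integral_const] at h2
  have h3 := (fn_per PB.one (mu sJ (wE b * vtE b p n t U))).1 0 0
  rw [zero_add] at h3
  rw [show f1 (mu sJ (wE b * vtE b p n t U)) (2 * π) 0 = f1 (mu sJ (wE b * vtE b p n t U)) 0 0 from h3,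
    sub_self, sub_zero, smul_eq_mul] at h2
  linarith

/-- sign change at a simple zero -/
theorem sign_change (g : ℝ → ℝ) (t₀ : ℝ) (h0 : g t₀ = 0) (h1 : deriv g t₀ ≠ 0) (δ : ℝ) (hδ : 0 < δ) :
    ∃ s t₁ t₂ : ℝ, |t₁ - t₀| < δ ∧ |t₂ - t₀| < δ ∧ t₁ ≤ t₂ ∧ s * g t₁ < 0 ∧ 0 < s * g t₂ := by
  have hd : HasDerivAt g (deriv g t₀) t₀ := (differentiableAt_of_deriv_ne_zero h1).hasDerivAt
  rw [hasDerivAt_iff_tendsto_slope] at hd
  have h2 : ∀ᶠ t in 𝓝[≠] t₀, 0 < deriv g t₀ * slope g t₀ t := by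
    have h3 : Tendsto (fun t => deriv g t₀ * slope g t₀ t) (𝓝[≠] t₀) (𝓝 (deriv g t₀ * deriv g t₀)) :=
      hd.const_mul _
    exact h3.eventually (lt_mem_nhds (mul_self_pos.mpr h1))
  rw [eventually_nhdsWithin_iff, Metric.eventually_nhds_iff] at h2
  obtain ⟨r, hr, h2⟩ := h2
  set d := min r δ / 2 with hd'
  have hm : 0 < min r δ := lt_min hr hδ
  have hd0 : 0 < d := by positivity
  have hdr : d < r := by
    have := min_le_left r δ
    linarith
  have hdδ : d < δ := by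
    have := min_le_right r δ
    linarith
  have h3 := h2 (y := t₀ - d) (by rw [Real.dist_eq]; simp [abs_of_pos hd0, hdr])
    (by simp [hd0.ne'])
  have h4 := h2 (y := t₀ + d) (by rw [Real.dist_eq]; simp [abs_of_pos hd0, hdr])
    (by simp [hd0.ne'])
  rw [slope_def_field, h0, sub_zero] at h3 h4
  refine ⟨deriv g t₀, t₀ - d, t₀ + d, by simp [abs_of_pos hd0, hdδ], by simp [abs_of_pos hd0, hdδ],
    by linarith, ?_, ?_⟩
  · have e : deriv g t₀ * (g (t₀ - d) / (t₀ - d - t₀)) = -(deriv g t₀ * g (t₀ - d)) / d := by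
      have := hd0.ne'
      have e2 : t₀ - d - t₀ = -d := by ring
      rw [e2]
      field_simp
    rw [e] at h3
    have := (div_pos_iff_of_pos_right hd0).mp h3
    linarith
  · have e : deriv g t₀ * (g (t₀ + d) / (t₀ + d - t₀)) = (deriv g t₀ * g (t₀ + d)) / d := by
      have e2 : t₀ + d - t₀ = d := by ring
      rw [e2]
      ring
    rw [e] at h4
    exact (div_pos_iff_of_pos_right hd0).mp h4

theorem pieceB (b p n : ℝ) (hb : 0 < b) (hb' : b ≤ 1 / 10) (hp : 0 < p) (hn : 0 < n) :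
    ∃ κa κb : ℝ → ℝ → ℝ, (∀ t : ℝ, Lin b p n t (fun x y => κa x y + t * κb x y)) ∧
      ∀ t₀ : ℝ, CC b p t₀ (fun x y => κa x y + t₀ * κb x y) = 0 →
        deriv (fun t : ℝ => CC b p t (fun x y => κa x y + t * κb x y)) t₀ ≠ 0 →
        ∀ η > 0, ∃ ε t : ℝ, 0 < ε ∧ ε < η ∧ |t - t₀| < η ∧
          ∃ (κ : ℝ → ℝ → ℝ) (lam M : ℝ → ℝ), BaseData b p n ε t κ lam M ∧
            Close η κ (fun x y => κa x y + t₀ * κb x y) ∧ ∀ x, |lam x - 1| ≤ η * ε := by
  obtain ⟨e, he⟩ := TT_equiv b p n hb hb'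
  set Ua : WW := e.symm (-sE b p n 0) with hUa
  set Ub : WW := e.symm (-sE1 b p n) with hUb
  have hUt : ∀ t : ℝ, e (Ua + t • Ub) = -sE b p n t := by
    intro t
    rw [map_add, map_smul, hUa, hUb, e.apply_symm_apply, e.apply_symm_apply, sE_affine b p n t, smul_neg]
    abel
  have hF0 : ∀ t U, FE b p n 0 t U = 0 ↔ U = Ua + t • Ub := by
    intro t U
    rw [FE_zero b p n hn]
    constructor
    · intro h
      apply e.injective
      rw [hUt, he]
      have : U - TT b p n U = -(-U + TT b p n U) := by abel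
      rw [this, sub_eq_zero.mp h]
    · intro h
      have h1 := hUt t
      rw [← h, he] at h1
      have : -U + TT b p n U = -(U - TT b p n U) := by abel
      rw [this, h1]
      abel
  have hH : ∀ t : ℝ, mu h1s (Ua + t • Ub) = Ua + t • Ub := by
    intro t
    apply e.injective
    rw [he, ← h1_TT, ← map_sub, ← he, hUt, map_neg, h1_sE b p n hn]
  have hfun : ∀ t : ℝ, (fun x y => f1 (kapE p n Ua) x y + t * f1 (kapE p n Ub) x y) =
      f1 (kapE p n (Ua + t • Ub)) := by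
    intro t
    funext x y
    rw [kapE, kapE, kapE, map_add, map_smul, f1_add, f1_smul]
  refine ⟨f1 (kapE p n Ua), f1 (kapE p n Ub), fun t => ?_, fun t₀ hC0 hC1 η hη => ?_⟩
  · rw [hfun]
    exact lin_of hn ((hF0 t _).mpr rfl) (hH t)
  simp only [hfun] at hC0 hC1 ⊢
  -- the implicit function
  set F : EV → WW := fun z => FE b p n z.1.1 z.1.2 z.2 with hF
  set U₀ : WW := Ua + t₀ • Ub with hU₀
  have hFu : F ((0, t₀), U₀) = 0 := (hF0 t₀ _).mpr rfl
  have cdf : ContDiffAt ℝ 1 F ((0, t₀), U₀) := FE_cd t₀ U₀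
  have if₂ := partial_inv (p := p) hn hb hb' t₀ U₀
  set ψ : ℝ × ℝ → WW := cdf.implicitFunction (by norm_num) if₂ with hψ
  have hψ0 : ψ (0, t₀) = U₀ := cdf.implicitFunction_apply_self (by norm_num) if₂
  have hψe : ∀ᶠ z in 𝓝 ((0 : ℝ), t₀), F (z, ψ z) = 0 := by
    have h := cdf.eventually_apply_implicitFunction (by norm_num) if₂
    rw [hFu] at h
    exact h
  have hψc : ContDiffAt ℝ 1 ψ (0, t₀) := cdf.contDiffAt_implicitFunction (by norm_num) if₂
  have hψcont : ∀ᶠ z in 𝓝 ((0 : ℝ), t₀), ContinuousAt ψ z :=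
    (hψc.eventually (by norm_num)).mono fun z hz => hz.continuousAt
  -- the scalar function
  set G : ℝ × ℝ → ℝ := fun z => avg (wE b * vtE b p n z.2 (ψ z)) with hG
  have hψ1 : ContinuousAt ψ (0, t₀) := hψc.continuousAt
  -- unit
  have hunit : ∀ᶠ z in 𝓝 ((0 : ℝ), t₀),
      IsUnit (1 + z.1 ^ 2 • (LamE b p n z.2 (ψ z) + vtE b p n z.2 (ψ z))) := by
    have hc : ContinuousAt (fun z : ℝ × ℝ =>
        (1 : WW) + z.1 ^ 2 • (LamE b p n z.2 (ψ z) + vtE b p n z.2 (ψ z))) (0, t₀) := by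
      have h1 : Continuous (fun z : EV => (1 : WW) + z.1.1 ^ 2 • (LamE b p n z.1.2 z.2 +
          vtE b p n z.1.2 z.2)) := by
        have := (vtE_cd (b := b) (p := p) (n := n)).continuous
        have := (LamE_cd (b := b) (p := p) (n := n)).continuous
        fun_prop
      have h2 : ContinuousAt (fun z : ℝ × ℝ => (z, ψ z)) (0, t₀) := continuousAt_id.prodMk hψ1
      exact ContinuousAt.comp (f := fun z : ℝ × ℝ => (z, ψ z)) (x := ((0 : ℝ), t₀))
        (g := fun z : EV => (1 : WW) + z.1.1 ^ 2 • (LamE b p n z.1.2 z.2 + vtE b p n z.1.2 z.2))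
        h1.continuousAt h2
    refine hc.eventually (Units.isOpen.mem_nhds ?_)
    simp
  have hLam : ∀ᶠ z in 𝓝 ((0 : ℝ), t₀), ‖LamE b p n z.2 (ψ z)‖ < ‖LamE b p n t₀ U₀‖ + 1 := by
    have hc : ContinuousAt (fun z : ℝ × ℝ => ‖LamE b p n z.2 (ψ z)‖) (0, t₀) := by
      have h1 : Continuous (fun z : EV => ‖LamE b p n z.1.2 z.2‖) :=
        (LamE_cd (b := b) (p := p) (n := n)).continuous.norm
      have h2 : ContinuousAt (fun z : ℝ × ℝ => (z, ψ z)) (0, t₀) := continuousAt_id.prodMk hψ1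
      exact ContinuousAt.comp (f := fun z : ℝ × ℝ => (z, ψ z)) (x := ((0 : ℝ), t₀))
        (g := fun z : EV => ‖LamE b p n z.1.2 z.2‖) h1.continuousAt h2
    refine hc.eventually (gt_mem_nhds ?_)
    simp only [hψ0]
    linarith
  obtain ⟨δ, hδ, hclose⟩ := close_of (p := p) η hη hn
  have hnear : ∀ᶠ z in 𝓝 ((0 : ℝ), t₀), ‖ψ z - U₀‖ ≤ δ := by
    have h := hψ1.eventually (Metric.closedBall_mem_nhds (ψ (0, t₀)) hδ)
    rw [hψ0] at h
    exact h.mono fun z hz => by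
      rw [← dist_eq_norm]
      exact hz
  have hall := (hψe.and (hψcont.and (hunit.and (hLam.and hnear))))
  rw [Metric.eventually_nhds_iff] at hall
  obtain ⟨r, hr, hall⟩ := hall
  have hGc : ∀ z : ℝ × ℝ, dist z (0, t₀) < r → ContinuousAt G z := by
    intro z hz
    have h1 : Continuous (fun z : EV => avg (wE b * vtE b p n z.1.2 z.2)) := by
      have := (vtE_cd (b := b) (p := p) (n := n)).continuous
      fun_prop
    have h2 : ContinuousAt (fun z : ℝ × ℝ => (z, ψ z)) z := continuousAt_id.prodMk (hall hz).2.1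
    exact ContinuousAt.comp (f := fun z : ℝ × ℝ => (z, ψ z)) (x := z)
      (g := fun z : EV => avg (wE b * vtE b p n z.1.2 z.2)) h1.continuousAt h2
  have hdist : ∀ ε t : ℝ, |ε| < r → |t - t₀| < r → dist ((ε, t) : ℝ × ℝ) (0, t₀) < r := by
    intro ε t h1 h2
    rw [Prod.dist_eq, max_lt_iff, Real.dist_eq, Real.dist_eq, sub_zero]
    exact ⟨h1, h2⟩
  have hG0 : ∀ t : ℝ, |t - t₀| < r → 2 * π * G (0, t) = CC b p t (f1 (kapE p n (Ua + t • Ub))) := by
    intro t ht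
    have h1 := (hall (hdist 0 t (by simpa using hr) ht)).1
    have h2 : ψ (0, t) = Ua + t • Ub := (hF0 t _).mp h1
    rw [CC_eq, hG]
    simp only [h2]
  obtain ⟨s, t₁, t₂, ht₁, ht₂, ht12, hs1, hs2⟩ := sign_change
    (fun t => CC b p t (f1 (kapE p n (Ua + t • Ub)))) t₀ hC0 hC1 (min r η) (lt_min hr hη)
  have ht₁r := ht₁.trans_le (min_le_left _ _)
  have ht₂r := ht₂.trans_le (min_le_left _ _)
  rw [← hG0 t₁ ht₁r] at hs1
  rw [← hG0 t₂ ht₂r] at hs2
  have hline : ∀ t : ℝ, |t - t₀| < r → Tendsto (fun ε : ℝ => G (ε, t)) (𝓝[>] 0) (𝓝 (G (0, t))) := by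
    intro t ht
    have h1 : ContinuousAt G (0, t) := hGc _ (hdist 0 t (by simpa using hr) ht)
    have h2 : ContinuousAt (fun ε : ℝ => (ε, t)) 0 := by fun_prop
    have h3 : ContinuousAt (fun ε : ℝ => G (ε, t)) 0 :=
      ContinuousAt.comp (f := fun ε : ℝ => (ε, t)) (x := (0 : ℝ)) (g := G) h1 h2
    exact h3.tendsto.mono_left nhdsWithin_le_nhds
  have hpi : (0 : ℝ) < 2 * π := by positivity
  have hev1 : ∀ᶠ ε in 𝓝[>] (0 : ℝ), s * (2 * π * G (ε, t₁)) < 0 :=
    (((hline t₁ ht₁r).const_mul (2 * π)).const_mul s).eventually (gt_mem_nhds hs1)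
  have hev2 : ∀ᶠ ε in 𝓝[>] (0 : ℝ), 0 < s * (2 * π * G (ε, t₂)) :=
    (((hline t₂ ht₂r).const_mul (2 * π)).const_mul s).eventually (lt_mem_nhds hs2)
  set K := ‖LamE b p n t₀ U₀‖ + 1 with hK
  have hKpos : 0 < K := by positivity
  have hev3 : ∀ᶠ ε in 𝓝[>] (0 : ℝ), ε < min (min r η) (η / K) := by
    have : ∀ᶠ ε in 𝓝 (0 : ℝ), ε < min (min r η) (η / K) :=
      gt_mem_nhds (lt_min (lt_min hr hη) (by positivity))
    exact nhdsWithin_le_nhds this
  have hev4 : ∀ᶠ ε in 𝓝[>] (0 : ℝ), 0 < ε := eventually_mem_nhdsWithin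
  obtain ⟨ε, hε1, hε2, hε3, hε4⟩ := (hev1.and (hev2.and (hev3.and hev4))).exists
  have hεr : ε < r := hε3.trans_le ((min_le_left _ _).trans (min_le_left _ _))
  have hεη : ε < η := hε3.trans_le ((min_le_left _ _).trans (min_le_right _ _))
  have hεK : ε < η / K := hε3.trans_le (min_le_right _ _)
  have habs : |ε| < r := by rwa [abs_of_pos hε4]
  have hbetw : ∀ t ∈ Icc t₁ t₂, |t - t₀| < min r η := by
    intro t ht
    rw [abs_lt] at ht₁ ht₂ ⊢
    exact ⟨by linarith [ht.1], by linarith [ht.2]⟩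
  have hcontOn : ContinuousOn (fun t => s * (2 * π * G (ε, t))) (Icc t₁ t₂) := by
    intro t ht
    have h1 : ContinuousAt G (ε, t) :=
      hGc _ (hdist ε t habs ((hbetw t ht).trans_le (min_le_left _ _)))
    have h2 : ContinuousAt (fun t : ℝ => (ε, t)) t := by fun_prop
    have h3 : ContinuousAt (fun t : ℝ => G (ε, t)) t :=
      ContinuousAt.comp (f := fun t : ℝ => (ε, t)) (x := t) (g := G) h1 h2
    exact ((h3.const_mul (2 * π)).const_mul s).continuousWithinAt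
  obtain ⟨t, ht, hroot⟩ := intermediate_value_Icc ht12 hcontOn ⟨hε1.le, hε2.le⟩
  have hs0 : s ≠ 0 := by
    rintro rfl
    simp at hε1
  have hGt : G (ε, t) = 0 := by
    simp only at hroot
    rcases mul_eq_zero.mp hroot with h | h
    · exact absurd h hs0
    · rcases mul_eq_zero.mp h with h' | h'
      · exact absurd h' hpi.ne'
      · exact h'
  have htr := (hbetw t ht).trans_le (min_le_left _ _)
  have htη := (hbetw t ht).trans_le (min_le_right _ _)
  obtain ⟨g1, g2, g3, g4, g5⟩ := hall (hdist ε t habs htr)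
  refine ⟨ε, t, hε4, hεη, htη, f1 (kapE p n (ψ (ε, t))), _, _, base_of hn g1 g3 hGt,
    hclose _ _ g5, fun x => ?_⟩
  have h1 : f1 (lamE b p n ε t (ψ (ε, t))) x 0 - 1 = ε ^ 2 * f1 (LamE b p n t (ψ (ε, t))) x 0 := by
    rw [lamE, f1_add, f1_smul, f1_one]
    ring
  rw [h1, abs_mul, abs_of_nonneg (sq_nonneg ε)]
  have h2 := abs_fn_le PB.one 1 zero_le_one (fun m => by
    rw [norm_one, one_mul]; exact om_ge m) (LamE b p n t (ψ (ε, t))) x 0
  rw [one_mul] at h2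
  have h3 : |f1 (LamE b p n t (ψ (ε, t))) x 0| ≤ K := h2.trans g4.le
  have h4 : ε * K ≤ η := by
    rw [lt_div_iff₀ hKpos] at hεK
    exact hεK.le
  calc ε ^ 2 * |f1 (LamE b p n t (ψ (ε, t))) x 0| ≤ ε ^ 2 * K := by gcongr
    _ = ε * (ε * K) := by ring
    _ ≤ ε * η := by gcongr
    _ = η * ε := by ring

end Run7.h99.WB
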